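import Mathlib
import Pool.Agent.V5helper51.CR6.Stm
import Pool.Agent.V5helper43.CR.MVG

/-!
# Project CR6, job CEL, part 1: pointwise inequalities and powers of blocks
-/

set_option autoImplicit false

namespace Pool.Agent.V5helper44.CR6

open Finset Filter MeasureTheory
open Pool.Agent.Q236.CR Pool.Agent.V5helper51.CR6

lemma mono_C {C C' : ℕ} {q L : ℝ} (h : C ≤ C') (hq : 1 ≤ q) (hL : 1 ≤ L) :
    (C : ℝ) * q ^ C * L ^ C ≤ C' * q ^ C' * L ^ C' := by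
  have h1 : (C : ℝ) ≤ C' := by exact_mod_cast h
  have h2 := pow_le_pow_right₀ hq h
  have h3 := pow_le_pow_right₀ hL h
  have h4 : 0 ≤ q := by linarith
  have h5 : 0 ≤ L := by linarith
  gcongr

lemma P1 {X w δ : ℝ} (hX : 1 < X) (hw : 0 ≤ w) (hδ : δ ≤ 1 / 100) (h : w ≤ X ^ (-(1 / 2) : ℝ)) :
    w ^ (2 - δ) ≤ X ^ (-(1 - δ / 2)) := by
  calc w ^ (2 - δ) ≤ (X ^ (-(1 / 2) : ℝ)) ^ (2 - δ) := Real.rpow_le_rpow hw h (by linarith)
    _ = X ^ (-(1 - δ / 2)) := by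
      rw [← Real.rpow_mul (by linarith)]
      congr 1
      ring

lemma P2 {X w δ lam T : ℝ} (hX : 1 < X) (hlam : 1 / 2 - δ / 4 < lam)
    (h : X ^ (-(1 / 2) : ℝ) < w) (hT : T ≤ X ^ (1 - δ / 2)) :
    w ^ (2 - δ) * T ≤ (X ^ lam) ^ 2 * (w ^ lam) ^ 4 := by
  have hX0 : 0 < X := by linarith
  have hw : 0 < w := lt_trans (Real.rpow_pos_of_pos hX0 _) h
  have h1 : X ^ (-(2 * lam - 1 + δ / 2)) ≤ w ^ (4 * lam - 2 + δ) := by
    calc X ^ (-(2 * lam - 1 + δ / 2)) = (X ^ (-(1 / 2) : ℝ)) ^ (4 * lam - 2 + δ) := by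
          rw [← Real.rpow_mul hX0.le]
          congr 1
          ring
      _ ≤ _ := Real.rpow_le_rpow (Real.rpow_pos_of_pos hX0 _).le h.le (by linarith)
  have h2 : T ≤ (X ^ lam) ^ 2 * w ^ (4 * lam - 2 + δ) := by
    calc T ≤ X ^ (1 - δ / 2) := hT
      _ = (X ^ lam) ^ 2 * X ^ (-(2 * lam - 1 + δ / 2)) := by
          rw [← Real.rpow_natCast (X ^ lam) 2, ← Real.rpow_mul hX0.le, ← Real.rpow_add hX0]
          congr 1
          push_cast
          ring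
      _ ≤ _ := by gcongr
  calc w ^ (2 - δ) * T ≤ w ^ (2 - δ) * ((X ^ lam) ^ 2 * w ^ (4 * lam - 2 + δ)) := by gcongr
    _ = (X ^ lam) ^ 2 * (w ^ (2 - δ) * w ^ (4 * lam - 2 + δ)) := by ring
    _ = _ := by
      rw [← Real.rpow_add hw, ← Real.rpow_natCast (w ^ lam) 4, ← Real.rpow_mul hw.le]
      congr 2
      push_cast
      ring

lemma P3 {X w δ ρ T : ℝ} (hX : 1 < X) (hw : 0 ≤ w) (hδ0 : 0 < δ) (hδ : δ ≤ 1 / 100)
    (hρ : 2 / 3 - δ / 3 ≤ ρ) (hρ' : ρ ≤ 1 - δ / 2) (h : w ≤ X ^ (-(1 / 4) : ℝ)) (hT0 : 0 ≤ T)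
    (hT : T ≤ X ^ (5 / 6 - δ)) :
    w ^ (2 - δ) * T ≤ X ^ ρ * (w ^ ρ) ^ 2 := by
  have hX0 : 0 < X := by linarith
  rcases hw.eq_or_lt with h0 | hw
  · rw [← h0, Real.zero_rpow (by linarith), zero_mul]
    positivity
  have h1 : w ^ (2 - δ - 2 * ρ) ≤ X ^ (-(2 - δ - 2 * ρ) / 4) := by
    calc w ^ (2 - δ - 2 * ρ) ≤ (X ^ (-(1 / 4) : ℝ)) ^ (2 - δ - 2 * ρ) :=
          Real.rpow_le_rpow hw.le h (by linarith)
      _ = _ := by
          rw [← Real.rpow_mul hX0.le]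
          congr 1
          ring
  calc w ^ (2 - δ) * T = (w ^ (2 - δ - 2 * ρ) * T) * (w ^ ρ) ^ 2 := by
        have : w ^ (2 - δ) = w ^ (2 - δ - 2 * ρ) * (w ^ ρ) ^ 2 := by
          rw [← Real.rpow_natCast (w ^ ρ) 2, ← Real.rpow_mul hw.le, ← Real.rpow_add hw]
          congr 1
          push_cast
          ring
        rw [this]
        ring
    _ ≤ (X ^ (-(2 - δ - 2 * ρ) / 4) * X ^ (5 / 6 - δ)) * (w ^ ρ) ^ 2 := by gcongr
    _ ≤ X ^ ρ * (w ^ ρ) ^ 2 := by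
        gcongr
        rw [← Real.rpow_add hX0]
        apply Real.rpow_le_rpow_of_exponent_le hX.le
        linarith

lemma P4 {X w δ ρ T : ℝ} (hX : 1 < X) (hδ0 : 0 < δ) (hδ : δ ≤ 1 / 100)
    (hρ : 2 / 3 - δ / 3 ≤ ρ) (h : X ^ (-(1 / 4) : ℝ) < w) (hT0 : 0 ≤ T)
    (hT : T ≤ X ^ (5 / 6 - δ)) :
    w ^ (2 - δ) * T ≤ (X ^ ρ) ^ 2 * (w ^ ρ) ^ 6 := by
  have hX0 : 0 < X := by linarith
  have hw : 0 < w := lt_trans (Real.rpow_pos_of_pos hX0 _) h
  have h1 : w ^ (2 - δ - 6 * ρ) ≤ X ^ (-(2 - δ - 6 * ρ) / 4) := by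
    calc w ^ (2 - δ - 6 * ρ) ≤ (X ^ (-(1 / 4) : ℝ)) ^ (2 - δ - 6 * ρ) :=
          Real.rpow_le_rpow_of_nonpos (Real.rpow_pos_of_pos hX0 _) h.le (by linarith)
      _ = _ := by
          rw [← Real.rpow_mul hX0.le]
          congr 1
          ring
  calc w ^ (2 - δ) * T = (w ^ (2 - δ - 6 * ρ) * T) * (w ^ ρ) ^ 6 := by
        have : w ^ (2 - δ) = w ^ (2 - δ - 6 * ρ) * (w ^ ρ) ^ 6 := by
          rw [← Real.rpow_natCast (w ^ ρ) 6, ← Real.rpow_mul hw.le, ← Real.rpow_add hw]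
          congr 1
          push_cast
          ring
        rw [this]
        ring
    _ ≤ (X ^ (-(2 - δ - 6 * ρ) / 4) * X ^ (5 / 6 - δ)) * (w ^ ρ) ^ 6 := by gcongr
    _ ≤ (X ^ ρ) ^ 2 * (w ^ ρ) ^ 6 := by
        gcongr
        rw [← Real.rpow_add hX0, ← Real.rpow_natCast (X ^ ρ) 2, ← Real.rpow_mul hX0.le]
        apply Real.rpow_le_rpow_of_exponent_le hX.le
        push_cast
        linarith

lemma P5 {w δ ρ : ℝ} (hw : 0 ≤ w) (hw1 : w ≤ 1) (hδ : δ ≤ 1 / 100) (hρ' : ρ ≤ 1 - δ / 2) :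
    w ^ (2 - δ) ≤ (w ^ ρ) ^ 2 := by
  rcases hw.eq_or_lt with h0 | hw
  · rw [← h0, Real.zero_rpow (by linarith)]
    positivity
  rw [← Real.rpow_natCast (w ^ ρ) 2, ← Real.rpow_mul hw.le]
  apply Real.rpow_le_rpow_of_exponent_ge hw hw1
  push_cast
  linarith

/-- powers of a block are Dirichlet polynomials -/
lemma pow_poly (F : ℕ → ℂ) (M u v g : ℕ) (Λ : ℝ) (hv : v ≤ 2 * M)
    (hF : ∀ n ∈ Ioc u v, ‖F n‖ ≤ Λ) (hΛ : 0 ≤ Λ) :
    ∃ b : ℕ → ℂ, (∀ τ : ℝ, (∑ n ∈ Ioc u v, F n * nt τ n) ^ g =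
      ∑ n ∈ Icc 1 ((2 * M) ^ g), b n * nt τ n) ∧
      ∑ n ∈ Icc 1 ((2 * M) ^ g), ‖b n‖ ^ 2 ≤
        Λ ^ (2 * g) * ∑ n ∈ Icc 1 ((2 * M) ^ g), (tr g (2 * M) n : ℝ) ^ 4 := by
  classical
  set V : Finset (Fin g → ℕ) := Fintype.piFinset (fun _ : Fin g => Ioc u v) with hV
  have hV1 : ∀ w ∈ V, w ∈ Fintype.piFinset (fun _ : Fin g => Icc 1 (2 * M)) := by
    intro w hw
    rw [hV, Fintype.mem_piFinset] at hw
    rw [Fintype.mem_piFinset]
    intro i
    have h1 := Finset.mem_Ioc.mp (hw i)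
    exact Finset.mem_Icc.mpr ⟨by omega, by omega⟩
  have hV2 : ∀ w ∈ V, ∏ i, w i ∈ Icc 1 ((2 * M) ^ g) := by
    intro w hw
    have h1 := Fintype.mem_piFinset.mp (hV1 w hw)
    rw [Finset.mem_Icc]
    refine ⟨Finset.one_le_prod' (fun i _ => (Finset.mem_Icc.mp (h1 i)).1), ?_⟩
    calc ∏ i, w i ≤ ∏ _i : Fin g, (2 * M) := Finset.prod_le_prod' (fun i _ => (Finset.mem_Icc.mp (h1 i)).2)
      _ = (2 * M) ^ g := by simp
  refine ⟨fun m => ∑ w ∈ V.filter (fun w => ∏ i, w i = m), ∏ i, F (w i), ?_, ?_⟩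
  · intro τ
    have h1 : (∑ n ∈ Ioc u v, F n * nt τ n) ^ g = ∏ _i : Fin g, ∑ n ∈ Ioc u v, F n * nt τ n := by simp
    rw [h1, Pool.Agent.V5helper43.CR.prod_poly (fun _ : Fin g => Ioc u v) (fun _ => F) τ, ← hV,
      ← Finset.sum_fiberwise_of_maps_to (s := V) (t := Icc 1 ((2 * M) ^ g)) (g := fun w => ∏ i, w i)
      (fun w hw => hV2 w hw)]
    apply Finset.sum_congr rfl
    intro m _
    rw [Finset.sum_mul]
    apply Finset.sum_congr rfl
    intro w hw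
    rw [(Finset.mem_filter.mp hw).2]
  · rw [Finset.mul_sum]
    apply Finset.sum_le_sum
    intro m _
    have h1 : ‖∑ w ∈ V.filter (fun w => ∏ i, w i = m), ∏ i, F (w i)‖ ≤ Λ ^ g * tr g (2 * M) m := by
      refine (norm_sum_le _ _).trans ?_
      calc ∑ w ∈ V.filter (fun w => ∏ i, w i = m), ‖∏ i, F (w i)‖
          ≤ ∑ w ∈ V.filter (fun w => ∏ i, w i = m), Λ ^ g := by
            apply Finset.sum_le_sum
            intro w hw
            rw [norm_prod]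
            calc ∏ i, ‖F (w i)‖ ≤ ∏ _i : Fin g, Λ :=
                  Finset.prod_le_prod (fun i _ => norm_nonneg _)
                    (fun i _ => hF _ (Fintype.mem_piFinset.mp (Finset.mem_filter.mp hw).1 i))
              _ = Λ ^ g := by simp
        _ = (V.filter (fun w => ∏ i, w i = m)).card * Λ ^ g := by
            rw [Finset.sum_const, nsmul_eq_mul]
        _ ≤ tr g (2 * M) m * Λ ^ g := by
            apply mul_le_mul_of_nonneg_right _ (by positivity)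
            unfold tr
            exact_mod_cast Finset.card_le_card (by
              intro w hw
              rw [Finset.mem_filter] at hw ⊢
              exact ⟨hV1 w hw.1, hw.2⟩)
        _ = _ := mul_comm _ _
    have h2 := pow_le_pow_left₀ (norm_nonneg _) h1 2
    refine h2.trans ?_
    rw [mul_pow, ← pow_mul, mul_comm g 2]
    apply mul_le_mul_of_nonneg_left _ (by positivity)
    have h3 : (tr g (2 * M) m : ℝ) ^ 2 = ((tr g (2 * M) m ^ 2 : ℕ) : ℝ) := by push_cast; rfl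
    have h4 : (tr g (2 * M) m : ℝ) ^ 4 = ((tr g (2 * M) m ^ 4 : ℕ) : ℝ) := by push_cast; rfl
    rw [h3, h4]
    norm_cast
    rcases Nat.eq_zero_or_pos (tr g (2 * M) m) with h | h
    · rw [h]; norm_num
    · exact Nat.pow_le_pow_right h (by norm_num)

/-- from a pointwise bound by constants on sets to an integral -/
lemma int_bound {ι : Type*} (I : Finset ι) (f h : ℝ → ℝ) (hf : Continuous f) (hh : Continuous h) (a b : ℝ)
    (hab : a ≤ b) (E : ι → Set ℝ) (hE : ∀ k ∈ I, MeasurableSet (E k)) (hE' : ∀ k ∈ I, E k ⊆ Set.Icc a b)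
    (c : ι → ℝ) (hc : ∀ k ∈ I, 0 ≤ c k)
    (hp : ∀ τ ∈ Set.Icc a b, f τ ≤ h τ + ∑ k ∈ I, (E k).indicator (fun _ => c k) τ) :
    ∫ τ in a..b, f τ ≤ (∫ τ in a..b, h τ) + ∑ k ∈ I, c k * (volume (E k)).toReal := by
  classical
  have hi : ∀ k ∈ I, IntervalIntegrable (fun τ => (E k).indicator (fun _ => c k) τ) volume a b := by
    intro k hk
    rw [intervalIntegrable_iff_integrableOn_Ioc_of_le hab]
    exact (integrable_const (c k)).indicator (hE k hk)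
  have hs : IntervalIntegrable (fun τ => ∑ k ∈ I, (E k).indicator (fun _ => c k) τ) volume a b := by
    have h1 := IntervalIntegrable.sum I hi
    have h2 : (∑ k ∈ I, fun τ => (E k).indicator (fun _ => c k) τ) =
        fun τ => ∑ k ∈ I, (E k).indicator (fun _ => c k) τ := by
      funext τ
      simp only [Finset.sum_apply]
    rwa [h2] at h1
  calc ∫ τ in a..b, f τ ≤ ∫ τ in a..b, (h τ + ∑ k ∈ I, (E k).indicator (fun _ => c k) τ) := by
        apply intervalIntegral.integral_mono_on hab (hf.intervalIntegrable _ _)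
          ((hh.intervalIntegrable _ _).add hs)
        exact hp
    _ = (∫ τ in a..b, h τ) + ∫ τ in a..b, ∑ k ∈ I, (E k).indicator (fun _ => c k) τ :=
        intervalIntegral.integral_add (hh.intervalIntegrable _ _) hs
    _ = (∫ τ in a..b, h τ) + ∑ k ∈ I, ∫ τ in a..b, (E k).indicator (fun _ => c k) τ := by
        rw [intervalIntegral.integral_finsetSum hi]
    _ ≤ _ := by
        gcongr with k hk
        rw [intervalIntegral.integral_of_le hab, integral_indicator_const _ (hE k hk), smul_eq_mul, mul_comm]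
        apply mul_le_mul_of_nonneg_left _ (hc k hk)
        unfold Measure.real
        apply ENNReal.toReal_mono
        · exact ((measure_mono (hE' k hk)).trans_lt (by simp)).ne
        · exact Measure.restrict_apply_le _ _

end Pool.Agent.V5helper44.CR6
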