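import Mathlib
import Pool.Agent.V5helper44.CR6.CELa

/-!
# Project CR6, job CEL, part 2: blocks in the middle range `X^{e1} ≤ M ≤ X^{1/2 - δ/4}`
-/

set_option autoImplicit false

namespace Pool.Agent.V5helper44.CR6

open Finset Filter MeasureTheory
open Pool.Agent.Q236.CR Pool.Agent.V5helper51.CR6

/-- the block polynomial -/
noncomputable def DD (F : ℕ → ℂ) (u v : ℕ) (τ : ℝ) : ℂ := ∑ n ∈ Ioc u v, F n * nt τ n

lemma DD_cont (F : ℕ → ℂ) (u v : ℕ) : Continuous (DD F u v) := by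
  unfold DD
  apply Pool.Agent.V5helper43.CR.poly_cont
  intro n hn
  have := (Finset.mem_Ioc.mp hn).1
  omega

/-- the normalised size of the block, `X^{-(1 - σ)}` -/
noncomputable def ww (X : ℝ) (M : ℕ) (F : ℕ → ℂ) (u v : ℕ) (τ : ℝ) : ℝ :=
  (‖DD F u v τ‖ / M) ^ (Real.log X / Real.log M)

lemma ww_nonneg (X : ℝ) (M : ℕ) (F : ℕ → ℂ) (u v : ℕ) (τ : ℝ) : 0 ≤ ww X M F u v τ := by
  unfold ww
  positivity

lemma ww_cont {X : ℝ} {M : ℕ} (F : ℕ → ℂ) (u v : ℕ) (h : 0 ≤ Real.log X / Real.log M) :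
    Continuous (ww X M F u v) := by
  unfold ww
  exact ((DD_cont F u v).norm.div_const _).rpow_const (fun _ => Or.inr h)

/-- the measure of a set of large values, weighted -/
lemma level_bound {P T G G0 N V ω c S Q B : ℝ} {g : ℕ} (hP : 0 < P) (hT : 0 < T) (hG : 0 ≤ G) (hGG : G ≤ G0 * P)
    (hN : N = 2 ^ g * P) (hV : V = P * (1 / 2) ^ g * ω) (hω : 0 < ω) (hc : 0 ≤ c)
    (h5 : c ≤ ω ^ 2) (h4 : c * T ≤ P ^ 2 * ω ^ 6) (hB : 0 ≤ B)
    (hS : S ≤ B * (G * N / V ^ 2 + 2 * T * G ^ 3 * N / V ^ 6))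
    (hQ : Q = G0 * 8 ^ g + 2 * (G0 ^ 3 * 128 ^ g)) : c * S ≤ B * Q := by
  have h1 : c * (G * N / V ^ 2) ≤ G0 * 8 ^ g := by
    have e1 : c * (G * N / V ^ 2) = c * G * (8 ^ g) / (P * ω ^ 2) := by
      rw [hN, hV]
      have : (8 : ℝ) ^ g = 2 ^ g * 2 ^ g * 2 ^ g := by rw [← mul_pow, ← mul_pow]; norm_num
      rw [this, one_div, inv_pow]
      field_simp
    rw [e1, div_le_iff₀ (by positivity)]
    calc c * G * 8 ^ g ≤ ω ^ 2 * (G0 * P) * 8 ^ g := by gcongr
      _ = _ := by ring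
  have h2 : c * (2 * T * G ^ 3 * N / V ^ 6) ≤ 2 * (G0 ^ 3 * 128 ^ g) := by
    have e1 : c * (2 * T * G ^ 3 * N / V ^ 6) = 2 * (c * T) * G ^ 3 * (128 ^ g) / (P ^ 5 * ω ^ 6) := by
      rw [hN, hV]
      have : (128 : ℝ) ^ g = 2 ^ g * 2 ^ g * 2 ^ g * 2 ^ g * 2 ^ g * 2 ^ g * 2 ^ g := by
        rw [← mul_pow, ← mul_pow, ← mul_pow, ← mul_pow, ← mul_pow, ← mul_pow]; norm_num
      rw [this, one_div, inv_pow]
      field_simp
    rw [e1, div_le_iff₀ (by positivity)]
    calc 2 * (c * T) * G ^ 3 * 128 ^ g ≤ 2 * (P ^ 2 * ω ^ 6) * (G0 * P) ^ 3 * 128 ^ g := by gcongr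
      _ = _ := by ring
  calc c * S ≤ c * (B * (G * N / V ^ 2 + 2 * T * G ^ 3 * N / V ^ 6)) := by gcongr
    _ = B * (c * (G * N / V ^ 2) + c * (2 * T * G ^ 3 * N / V ^ 6)) := by ring
    _ ≤ B * Q := by
      rw [hQ]
      gcongr

lemma caseB (hHMV : S_HMV) (hDV : S_DV) {δ e1 : ℝ} (hδ0 : 0 < δ) (hδ : δ ≤ 1 / 100) (he1 : 0 < e1) :
    ∃ C : ℕ, ∀ X : ℝ, Real.exp 2 ≤ X → ∀ T a b : ℝ, 1 ≤ T → T ≤ X ^ (5 / 6 - δ) → b - a = T →
    -(2 * T) ≤ a → b ≤ 2 * T → ∀ (F : ℕ → ℂ) (M u v : ℕ), X ^ e1 ≤ M → (M : ℝ) ≤ X ^ (1 / 2 - δ / 4) →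
    M ≤ u + 1 → v ≤ 2 * M → (∀ n ∈ Ioc u v, ‖F n‖ ≤ 3 * Real.log X) →
    (∀ τ ∈ Set.Icc a b, ‖DD F u v τ‖ ≤ M) →
    ∫ τ in a..b, (ww X M F u v τ) ^ (2 - δ) ≤ C * Real.log X ^ C := by
  classical
  obtain ⟨CH, hCH⟩ := hHMV
  choose CV hCV using hDV
  set h : ℕ := ⌈1 / e1⌉₊ with hh
  set c : ℕ := ∑ r ∈ range (h + 1), CV r with hc
  set E : ℕ := 16 * h + 3 * c + CH + 5 with hE
  refine ⟨(CH + 1) * (4 * h) ^ E + E, ?_⟩
  intro X hX T a b hT1 hT hab ha hb F M u v hM1 hM2 hMu hvM hF hD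
  have hh1 : 1 ≤ h := Nat.one_le_iff_ne_zero.mpr (by
    rw [hh, Ne, Nat.ceil_eq_zero, not_le]; positivity)
  have hX0 : 0 < X := lt_of_lt_of_le (Real.exp_pos 2) hX
  have hX1 : 1 < X := lt_of_lt_of_le (by
    have := Real.add_one_lt_exp (show (2 : ℝ) ≠ 0 by norm_num)
    linarith) hX
  set L := Real.log X with hL
  have hL2 : 2 ≤ L := by
    rw [hL, Real.le_log_iff_exp_le hX0]
    exact hX
  have hM1' : 1 < (M : ℝ) := lt_of_lt_of_le (Real.one_lt_rpow hX1 he1) hM1
  have hM0 : 0 < (M : ℝ) := by linarith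
  have hMn : 1 ≤ M := by
    have : 0 < M := by exact_mod_cast hM0
    omega
  have hlM : 0 < Real.log M := Real.log_pos hM1'
  set lam : ℝ := Real.log M / L with hlam
  have hlam0 : 0 < lam := by positivity
  have hXlam : X ^ lam = M := by
    rw [hlam, Real.rpow_def_of_pos hX0, ← hL, mul_div_cancel₀ _ (by linarith : L ≠ 0), Real.exp_log hM0]
  have hlam1 : e1 ≤ lam := by
    rw [hlam, le_div_iff₀ (by linarith)]
    have := Real.log_le_log (Real.rpow_pos_of_pos hX0 _) hM1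
    rwa [Real.log_rpow hX0] at this
  have hlam2 : lam ≤ 1 / 2 - δ / 4 := by
    rw [hlam, div_le_iff₀ (by linarith)]
    have := Real.log_le_log hM0 hM2
    rwa [Real.log_rpow hX0] at this
  have hinv : Real.log X / Real.log M = 1 / lam := by
    rw [hlam, one_div_div]
  set g : ℕ := ⌈(2 / 3 - δ / 3) / lam⌉₊ with hg
  have hgl : (2 / 3 - δ / 3) / lam ≤ g := Nat.le_ceil _
  have hgu : (g : ℝ) < (2 / 3 - δ / 3) / lam + 1 := Nat.ceil_lt_add_one (by
    apply div_nonneg _ hlam0.le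
    linarith)
  have hgh : g ≤ h := by
    rw [hg, hh]
    apply Nat.ceil_le_ceil
    rw [div_le_div_iff₀ hlam0 he1]
    nlinarith
  set ρ : ℝ := g * lam with hρ
  have hρ1 : 2 / 3 - δ / 3 ≤ ρ := by
    rw [div_le_iff₀ hlam0] at hgl
    exact hgl
  have hρ2 : ρ ≤ 1 - δ / 2 := by
    rcases lt_or_ge lam (1 / 3 - δ / 6) with h1 | h1
    · have h2 : ρ < ((2 / 3 - δ / 3) / lam + 1) * lam := by
        rw [hρ]
        exact mul_lt_mul_of_pos_right hgu hlam0
      rw [add_mul, div_mul_cancel₀ _ hlam0.ne', one_mul] at h2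
      linarith
    · have h2 : g ≤ 2 := by
        rw [hg]
        apply Nat.ceil_le.mpr
        rw [div_le_iff₀ hlam0]
        push_cast
        linarith
      have h3 : (g : ℝ) ≤ 2 := by exact_mod_cast h2
      have h4 : ρ ≤ 2 * lam := by
        rw [hρ]
        gcongr
      linarith
  have hρ0 : 0 < ρ := by linarith
  set P : ℝ := X ^ ρ with hP
  have hP0 : 0 < P := Real.rpow_pos_of_pos hX0 _
  have hPM : P = (M : ℝ) ^ g := by
    rw [hP, hρ, mul_comm (g : ℝ) lam, Real.rpow_mul hX0.le, hXlam, Real.rpow_natCast]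
  -- powers
  set Λ : ℝ := 3 * L with hΛ
  have hΛ0 : 0 ≤ Λ := by rw [hΛ]; linarith
  obtain ⟨bb, hbb, hbb2⟩ := pow_poly F M u v g Λ hvM hF hΛ0
  set N : ℕ := (2 * M) ^ g with hN
  have hN1 : 1 ≤ N := Nat.one_le_pow _ _ (by omega)
  have hNr : (N : ℝ) = 2 ^ g * P := by
    rw [hN, hPM]
    push_cast
    rw [mul_pow]
  have hlogN0 : 0 ≤ Real.log N := Real.log_natCast_nonneg N
  set G : ℝ := ∑ n ∈ Icc 1 N, ‖bb n‖ ^ 2 with hG
  have hG_nn : 0 ≤ G := Finset.sum_nonneg fun _ _ => by positivity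
  set G0 : ℝ := Λ ^ (2 * g) * 2 ^ g * (1 + Real.log N) ^ CV g with hG0
  have hG0_nn : 0 ≤ G0 := by positivity
  have hGle : G ≤ G0 * P := by
    calc G ≤ Λ ^ (2 * g) * ∑ n ∈ Icc 1 N, (tr g (2 * M) n : ℝ) ^ 4 := hbb2
      _ ≤ Λ ^ (2 * g) * (N * (1 + Real.log N) ^ CV g) := by
          gcongr
          exact hCV g (2 * M) N hN1
      _ = G0 * P := by rw [hG0, hNr]; ring
  -- the logarithmic parameter
  set Y : ℝ := 4 * h * L with hY
  have hhr : (1 : ℝ) ≤ h := by exact_mod_cast hh1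
  have hhL : L ≤ h * L := le_mul_of_one_le_left (by linarith) hhr
  have hY3 : 3 * L ≤ Y := by
    rw [hY]
    linarith
  have hY1 : 1 ≤ Y := by linarith
  have hY2 : 2 ≤ Y := by linarith
  have hlog2 : Real.log 2 ≤ 0.7 := by
    have := Real.log_two_lt_d9
    linarith
  have hlogM : Real.log M ≤ L / 2 := by
    have h1 : Real.log M = lam * L := by rw [hlam, div_mul_cancel₀ _ (by linarith)]
    rw [h1]
    calc lam * L ≤ (1 / 2) * L := by
          apply mul_le_mul_of_nonneg_right _ (by linarith)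
          linarith
      _ = L / 2 := by ring
  have hgr : (g : ℝ) ≤ h := by exact_mod_cast hgh
  have hlogN : Real.log N ≤ h * L := by
    rw [hN]
    push_cast
    rw [Real.log_pow, Real.log_mul (by norm_num) hM0.ne']
    calc (g : ℝ) * (Real.log 2 + Real.log M) ≤ h * (0.7 + L / 2) := by
          have : 0 ≤ Real.log 2 := Real.log_nonneg (by norm_num)
          gcongr
      _ ≤ h * L := by
          gcongr
          linarith
  have hYN : 1 + Real.log N ≤ Y := by
    rw [hY]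
    linarith
  have hYNT : 2 + Real.log (N + 2 * T) ≤ Y := by
    have hNr1 : (1 : ℝ) ≤ N := by exact_mod_cast hN1
    have h1 : (N : ℝ) + 2 * T ≤ 2 * N * (2 * T) := by
      have e1 : (N : ℝ) ≤ N * T := le_mul_of_one_le_right (by linarith) hT1
      have e2 : T ≤ N * T := le_mul_of_one_le_left (by linarith) hNr1
      linarith
    have h2 : Real.log (N + 2 * T) ≤ Real.log (2 * N * (2 * T)) := Real.log_le_log (by positivity) h1
    rw [Real.log_mul (by positivity) (by positivity), Real.log_mul (by norm_num) (by positivity),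
      Real.log_mul (by norm_num) (by positivity)] at h2
    have h3 : Real.log T ≤ L := by
      have h4 := Real.log_le_log (by linarith) hT
      rw [Real.log_rpow hX0] at h4
      refine h4.trans ?_
      calc (5 / 6 - δ) * L ≤ 1 * L := by
            apply mul_le_mul_of_nonneg_right _ (by linarith)
            linarith
        _ = L := one_mul _
    rw [hY]
    linarith
  have hG0Y : G0 ≤ Y ^ (3 * h + c) := by
    have h1 : Λ ^ (2 * g) ≤ Y ^ (2 * h) := by
      calc Λ ^ (2 * g) ≤ Y ^ (2 * g) := by gcongr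
        _ ≤ Y ^ (2 * h) := pow_le_pow_right₀ hY1 (by omega)
    have h2 : (2 : ℝ) ^ g ≤ Y ^ h := by
      calc (2 : ℝ) ^ g ≤ Y ^ g := by gcongr
        _ ≤ Y ^ h := pow_le_pow_right₀ hY1 hgh
    have h3 : (1 + Real.log N) ^ CV g ≤ Y ^ c := by
      calc (1 + Real.log N) ^ CV g ≤ Y ^ CV g := by gcongr
        _ ≤ Y ^ c := pow_le_pow_right₀ hY1 (by
          rw [hc]
          exact Finset.single_le_sum (f := CV) (fun _ _ => Nat.zero_le _) (Finset.mem_range.mpr (by omega)))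
    calc G0 ≤ Y ^ (2 * h) * Y ^ h * Y ^ c := by rw [hG0]; gcongr
      _ = _ := by rw [← pow_add, ← pow_add]; congr 1; ring
  -- sets and weights
  set W : ℕ → ℝ := fun k => ((1 / 2 : ℝ) ^ k) ^ (1 / lam) with hW
  set I : Finset ℕ := (range ⌈L⌉₊).filter (fun k => X ^ (-(1 / 4) : ℝ) < W k) with hI
  set EE : ℕ → Set ℝ := fun k => {τ | τ ∈ Set.Icc a b ∧ P * ((1 / 2 : ℝ) ^ (k + 1)) ^ g ≤ ‖DD F u v τ‖ ^ g} with hEE
  have hDc : Continuous (DD F u v) := DD_cont F u v
  have hEm : ∀ k ∈ I, MeasurableSet (EE k) := by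
    intro k _
    apply IsClosed.measurableSet
    exact IsClosed.and isClosed_Icc (isClosed_le continuous_const (hDc.norm.pow g))
  have hEs : ∀ k ∈ I, EE k ⊆ Set.Icc a b := fun k _ τ hτ => hτ.1
  set cc : ℕ → ℝ := fun k => W k ^ (2 - δ) with hcc
  have hW0 : ∀ k, 0 < W k := fun k => by simp only [hW]; positivity
  have hccn : ∀ k ∈ I, 0 ≤ cc k := fun k _ => by
    simp only [hcc]
    exact (Real.rpow_pos_of_pos (hW0 k) _).le
  set hf : ℝ → ℝ := fun τ => 2 / (P * (T + P)) * ‖DD F u v τ ^ g‖ ^ 2 with hhf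
  have hhc : Continuous hf := continuous_const.mul ((hDc.pow g).norm.pow 2)
  have hwc : Continuous (fun τ => ww X M F u v τ ^ (2 - δ)) :=
    (ww_cont F u v (by rw [hinv]; positivity)).rpow_const (fun _ => Or.inr (by linarith))
  have habl : a ≤ b := by linarith
  -- pointwise
  have hp : ∀ τ ∈ Set.Icc a b, ww X M F u v τ ^ (2 - δ) ≤
      hf τ + ∑ k ∈ I, (EE k).indicator (fun _ => cc k) τ := by
    intro τ hτ
    set A : ℝ := ‖DD F u v τ‖ / M with hA
    have hA0 : 0 ≤ A := by positivity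
    have hA1 : A ≤ 1 := by
      rw [hA, div_le_one hM0]
      exact hD τ hτ
    have hDA : ‖DD F u v τ‖ = M * A := by rw [hA]; field_simp
    set w : ℝ := ww X M F u v τ with hw
    have hwA : w = A ^ (1 / lam) := by rw [hw, ww, hinv]
    have hw0 : 0 ≤ w := by rw [hwA]; positivity
    have hw1 : w ≤ 1 := by
      rw [hwA]
      exact Real.rpow_le_one hA0 hA1 (by positivity)
    have hwlam : w ^ lam = A := by
      rw [hwA, ← Real.rpow_mul hA0, one_div, inv_mul_cancel₀ hlam0.ne', Real.rpow_one]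
    have hwρ : w ^ ρ = A ^ g := by
      rw [hρ, mul_comm, Real.rpow_mul hw0, hwlam, Real.rpow_natCast]
    have hind : ∀ k ∈ I, 0 ≤ (EE k).indicator (fun _ => cc k) τ := fun k hk =>
      Set.indicator_nonneg (fun _ _ => hccn k hk) τ
    rcases le_or_gt w (X ^ (-(1 / 4) : ℝ)) with h1 | h1
    · have h3 := P3 hX1 hw0 hδ0 hδ hρ1 hρ2 h1 (by linarith) hT
      have h5 := P5 hw0 hw1 hδ hρ2
      have h6 : w ^ (2 - δ) ≤ hf τ := by
        have e1 : hf τ = 2 * P * (w ^ ρ) ^ 2 / (T + P) := by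
          simp only [hhf]
          rw [norm_pow, hDA, hwρ, mul_pow, ← hPM]
          field_simp
        rw [e1, le_div_iff₀ (by linarith)]
        calc w ^ (2 - δ) * (T + P) = w ^ (2 - δ) * T + w ^ (2 - δ) * P := by ring
          _ ≤ P * (w ^ ρ) ^ 2 + (w ^ ρ) ^ 2 * P := by gcongr
          _ = _ := by ring
      have h7 := Finset.sum_nonneg hind
      linarith
    · have hw00 : 0 < w := lt_trans (Real.rpow_pos_of_pos hX0 _) h1
      have hA00 : 0 < A := by
        rw [← hwlam]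
        positivity
      obtain ⟨k, hk1, hk2⟩ := exists_nat_pow_near_of_lt_one hA00 hA1 (by norm_num : (0 : ℝ) < 1 / 2)
        (by norm_num)
      have hwk : w ≤ W k := by
        rw [hwA]
        exact Real.rpow_le_rpow hA0 hk2 (by positivity)
      have hkI : k ∈ I := by
        rw [hI, Finset.mem_filter, Finset.mem_range]
        refine ⟨?_, lt_of_lt_of_le h1 hwk⟩
        have h8 : X ^ (-(1 / 4) : ℝ) < W k := lt_of_lt_of_le h1 hwk
        have h9 := Real.log_lt_log (Real.rpow_pos_of_pos hX0 _) h8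
        simp only [hW] at h9
        have h2i : Real.log (1 / 2) = -Real.log 2 := by rw [one_div, Real.log_inv]
        rw [Real.log_rpow hX0, Real.log_rpow (by positivity), Real.log_pow, h2i, ← hL] at h9
        have h10 : 0.69 < Real.log 2 := by
          have := Real.log_two_gt_d9
          linarith
        have h11 : (k : ℝ) < L := by
          have h13 : (k : ℝ) * Real.log 2 < 1 / 4 * L * lam := by
            have e1 : 1 / lam * ((k : ℝ) * -Real.log 2) = -((k : ℝ) * Real.log 2 / lam) := by ring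
            rw [e1] at h9
            have h14 : (k : ℝ) * Real.log 2 / lam < 1 / 4 * L := by linarith
            rwa [div_lt_iff₀ hlam0] at h14
          have h12 : (k : ℝ) * 0.69 ≤ k * Real.log 2 :=
            mul_le_mul_of_nonneg_left h10.le (Nat.cast_nonneg k)
          have h15 : 1 / 4 * L * lam ≤ 1 / 4 * L * 1 := by
            apply mul_le_mul_of_nonneg_left _ (by linarith)
            linarith
          linarith
        exact Nat.lt_ceil.mpr h11
      have hkE : τ ∈ EE k := by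
        refine ⟨hτ, ?_⟩
        rw [hDA, mul_pow, ← hPM]
        gcongr
      have h12 : w ^ (2 - δ) ≤ cc k := Real.rpow_le_rpow hw0 hwk (by linarith)
      have h13 : (EE k).indicator (fun _ => cc k) τ = cc k := Set.indicator_of_mem hkE _
      have h14 : cc k ≤ ∑ k ∈ I, (EE k).indicator (fun _ => cc k) τ := by
        rw [← h13]
        exact Finset.single_le_sum (f := fun k => (EE k).indicator (fun _ => cc k) τ) hind hkI
      have h15 : 0 ≤ hf τ := by
        simp only [hhf]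
        positivity
      linarith
  have hmain := int_bound I _ hf hwc hhc a b habl EE hEm hEs cc hccn hp
  -- the mean value part
  have hint1 : ∫ τ in a..b, hf τ ≤ 16 * Y ^ h * Y * Y ^ (3 * h + c) := by
    have h1 : ∫ τ in a..b, hf τ = 2 / (P * (T + P)) * ∫ τ in a..b, ‖∑ n ∈ Icc 1 N, bb n * (n : ℂ) ^ (-(τ : ℂ) * Complex.I)‖ ^ 2 := by
      simp only [hhf]
      rw [intervalIntegral.integral_const_mul]
      congr 1
      apply intervalIntegral.integral_congr
      intro τ _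
      simp only
      have := hbb τ
      unfold DD
      rw [this]
      rfl
    rw [h1]
    have h2 := H370.mean_value bb N a b habl
    rw [hab] at h2
    have h2g : (1 : ℝ) ≤ 2 ^ g := one_le_pow₀ (by norm_num)
    have h3 : T + 8 * N * (1 + Real.log N) ≤ 8 * 2 ^ g * Y * (T + P) := by
      rw [hNr]
      have h4 : T ≤ 8 * 2 ^ g * Y * T := by
        have e1 : (1 : ℝ) * 1 ≤ 2 ^ g * Y := mul_le_mul h2g hY1 (by norm_num) (by positivity)
        apply le_mul_of_one_le_left (by linarith)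
        linarith
      have h5 : 8 * (2 ^ g * P) * (1 + Real.log (2 ^ g * P)) ≤ 8 * 2 ^ g * Y * P := by
        rw [← hNr]
        calc 8 * (N : ℝ) * (1 + Real.log N) ≤ 8 * N * Y := by gcongr
          _ = _ := by rw [hNr]; ring
      linarith
    have h6 : (2 : ℝ) ^ g ≤ Y ^ h := by
      calc (2 : ℝ) ^ g ≤ Y ^ g := by gcongr
        _ ≤ Y ^ h := pow_le_pow_right₀ hY1 hgh
    calc 2 / (P * (T + P)) * ∫ τ in a..b, ‖∑ n ∈ Icc 1 N, bb n * (n : ℂ) ^ (-(τ : ℂ) * Complex.I)‖ ^ 2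
        ≤ 2 / (P * (T + P)) * ((8 * 2 ^ g * Y * (T + P)) * (G0 * P)) := by
          have : 0 ≤ 2 / (P * (T + P)) := by positivity
          apply mul_le_mul_of_nonneg_left _ this
          refine h2.trans ?_
          gcongr
      _ = 16 * 2 ^ g * Y * G0 := by
          field_simp
          ring
      _ ≤ 16 * Y ^ h * Y * Y ^ (3 * h + c) := by gcongr
  -- the large values part
  set Q : ℝ := G0 * 8 ^ g + 2 * (G0 ^ 3 * 128 ^ g) with hQ
  set B : ℝ := CH * (2 + Real.log (N + 2 * T)) ^ CH with hB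
  have hlogNT : 0 ≤ 2 + Real.log (N + 2 * T) := by
    have : 0 ≤ Real.log (N + 2 * T) := Real.log_nonneg (by
      have hNr1 : (1 : ℝ) ≤ N := by exact_mod_cast hN1
      linarith)
    linarith
  have hB0 : 0 ≤ B := by positivity
  have hterm : ∀ k ∈ I, cc k * (volume (EE k)).toReal ≤ B * Q := by
    intro k hk
    set ω : ℝ := W k ^ ρ with hω
    have hω0 : 0 < ω := Real.rpow_pos_of_pos (hW0 k) _
    have hωk : ω = ((1 / 2 : ℝ) ^ k) ^ g := by
      have e1 : W k ^ lam = (1 / 2 : ℝ) ^ k := by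
        simp only [hW]
        rw [← Real.rpow_mul (by positivity), one_div lam, inv_mul_cancel₀ hlam0.ne', Real.rpow_one]
      rw [hω, hρ, mul_comm (g : ℝ) lam, Real.rpow_mul (hW0 k).le, e1, Real.rpow_natCast]
    set V : ℝ := P * ((1 / 2 : ℝ) ^ (k + 1)) ^ g with hV
    have hVω : V = P * (1 / 2) ^ g * ω := by
      rw [hV, hωk, pow_succ, mul_pow]
      ring
    have hV0 : 0 < V := by rw [hVω]; positivity
    have hWk := (Finset.mem_filter.mp hk).2
    have hW1 : W k ≤ 1 := by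
      simp only [hW]
      apply Real.rpow_le_one (by positivity) _ (by positivity)
      exact pow_le_one₀ (by norm_num) (by norm_num)
    have h5 := P5 (hW0 k).le hW1 hδ hρ2
    have h4 := P4 hX1 hδ0 hδ hρ1 hWk (by linarith) hT
    have hS := hCH N bb (2 * T) V (EE k) hN1 (by linarith) hV0 (hEm k hk) (by
      intro τ hτ
      have := hEs k hk hτ
      exact ⟨by linarith [this.1], by linarith [this.2]⟩) (by
      intro τ hτ
      rw [← hbb τ, norm_pow]
      exact hτ.2)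
    rw [← hG, ← hB] at hS
    exact level_bound (N := N) (V := V) (ω := ω) (P := P) (T := T) (G := G) (G0 := G0) (g := g) (Q := Q) (B := B)
      hP0 (by linarith) hG_nn hGle hNr hVω hω0 (hccn k hk) h5 h4 hB0 hS hQ
  have hsum : ∑ k ∈ I, cc k * (volume (EE k)).toReal ≤ (L + 1) * (B * Q) := by
    calc ∑ k ∈ I, cc k * (volume (EE k)).toReal ≤ ∑ k ∈ I, B * Q := Finset.sum_le_sum hterm
      _ = I.card * (B * Q) := by rw [Finset.sum_const, nsmul_eq_mul]
      _ ≤ (L + 1) * (B * Q) := by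
          apply mul_le_mul_of_nonneg_right _ (by positivity)
          have h1 : I.card ≤ ⌈L⌉₊ := by
            calc I.card ≤ (range ⌈L⌉₊).card := Finset.card_filter_le _ _
              _ = _ := Finset.card_range _
          have h2 : (I.card : ℝ) ≤ ⌈L⌉₊ := by exact_mod_cast h1
          have h3 := Nat.ceil_lt_add_one (show 0 ≤ L by linarith)
          linarith
  have hBY : B ≤ CH * Y ^ CH := by
    rw [hB]
    gcongr
  have hQY : Q ≤ Y ^ (16 * h + 3 * c + 2) := by
    have h8 : (8 : ℝ) ^ g ≤ Y ^ (3 * h) := by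
      calc (8 : ℝ) ^ g = (2 : ℝ) ^ (3 * g) := by rw [pow_mul]; norm_num
        _ ≤ Y ^ (3 * g) := by gcongr
        _ ≤ Y ^ (3 * h) := pow_le_pow_right₀ hY1 (by omega)
    have h128 : (128 : ℝ) ^ g ≤ Y ^ (7 * h) := by
      calc (128 : ℝ) ^ g = (2 : ℝ) ^ (7 * g) := by rw [pow_mul]; norm_num
        _ ≤ Y ^ (7 * g) := by gcongr
        _ ≤ Y ^ (7 * h) := pow_le_pow_right₀ hY1 (by omega)
    calc Q ≤ Y ^ (3 * h + c) * Y ^ (3 * h) + 2 * ((Y ^ (3 * h + c)) ^ 3 * Y ^ (7 * h)) := by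
          rw [hQ]
          gcongr
      _ = Y ^ (6 * h + c) + 2 * Y ^ (16 * h + 3 * c) := by
          rw [← pow_add, ← pow_mul, ← pow_add]
          congr 2
          · ring
          · congr 1; ring
      _ ≤ Y ^ (16 * h + 3 * c) + 2 * Y ^ (16 * h + 3 * c) := by
          have := pow_le_pow_right₀ hY1 (show 6 * h + c ≤ 16 * h + 3 * c by omega)
          linarith
      _ = 3 * Y ^ (16 * h + 3 * c) := by ring
      _ ≤ Y ^ 2 * Y ^ (16 * h + 3 * c) := by
          apply mul_le_mul_of_nonneg_right _ (by positivity)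
          calc (3 : ℝ) ≤ 2 ^ 2 := by norm_num
            _ ≤ Y ^ 2 := by gcongr
      _ = _ := by rw [← pow_add]; congr 1; ring
  have hYE : Y ^ E = (4 * h : ℝ) ^ E * L ^ E := by rw [hY, mul_pow]
  have hfin : ∫ τ in a..b, ww X M F u v τ ^ (2 - δ) ≤ (CH + 1) * Y ^ E := by
    have h1 : 16 * Y ^ h * Y * Y ^ (3 * h + c) ≤ Y ^ E := by
      calc 16 * Y ^ h * Y * Y ^ (3 * h + c) ≤ Y ^ 4 * Y ^ h * Y * Y ^ (3 * h + c) := by
            gcongr
            calc (16 : ℝ) = 2 ^ 4 := by norm_num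
              _ ≤ Y ^ 4 := by gcongr
        _ = Y ^ (4 + h + 1 + (3 * h + c)) := by ring
        _ ≤ Y ^ E := pow_le_pow_right₀ hY1 (by omega)
    have h2 : (L + 1) * (B * Q) ≤ CH * Y ^ E := by
      calc (L + 1) * (B * Q) ≤ Y * ((CH * Y ^ CH) * Y ^ (16 * h + 3 * c + 2)) := by
            have : 0 ≤ Q := by rw [hQ]; positivity
            gcongr
            linarith
        _ = CH * Y ^ (1 + CH + (16 * h + 3 * c + 2)) := by ring
        _ ≤ CH * Y ^ E := by
            have := pow_le_pow_right₀ hY1 (show 1 + CH + (16 * h + 3 * c + 2) ≤ E by omega)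
            exact mul_le_mul_of_nonneg_left this (Nat.cast_nonneg _)
    calc ∫ τ in a..b, ww X M F u v τ ^ (2 - δ) ≤ (∫ τ in a..b, hf τ) + ∑ k ∈ I, cc k * (volume (EE k)).toReal := hmain
      _ ≤ Y ^ E + CH * Y ^ E := by linarith
      _ = _ := by ring
  refine hfin.trans ?_
  rw [hYE]
  have hL1 : 1 ≤ L := by linarith
  calc (CH + 1 : ℝ) * ((4 * h) ^ E * L ^ E) = (((CH + 1) * (4 * h) ^ E : ℕ) : ℝ) * L ^ E := by push_cast; ring
    _ ≤ (((CH + 1) * (4 * h) ^ E + E : ℕ) : ℝ) * L ^ ((CH + 1) * (4 * h) ^ E + E) := by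
        have e1 := pow_le_pow_right₀ hL1 (show E ≤ (CH + 1) * (4 * h) ^ E + E by omega)
        have e2 : (((CH + 1) * (4 * h) ^ E : ℕ) : ℝ) ≤ (((CH + 1) * (4 * h) ^ E + E : ℕ) : ℝ) := by
          exact_mod_cast Nat.le_add_right _ _
        exact mul_le_mul e2 e1 (by positivity) (by positivity)

end Pool.Agent.V5helper44.CR6
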