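import Mathlib
import Pool.Agent.V5helper44.CR6.CELb

/-!
# Project CR6, job CEL, part 3: long blocks, one block in general
-/

set_option autoImplicit false

namespace Pool.Agent.V5helper44.CR6

open Finset Filter MeasureTheory
open Pool.Agent.Q236.CR Pool.Agent.V5helper51.CR6

/-- the three types of factors -/
def Ty {q : ℕ} (χ : DirichletCharacter ℂ q) (z : ℕ) (F : ℕ → ℂ) : Prop :=
  F = gmu (fun n : ℕ => χ (n : ZMod q)) z ∨ F = (fun n : ℕ => χ (n : ZMod q)) ∨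
    F = fun n : ℕ => χ (n : ZMod q) * (Real.log n : ℂ)

lemma Ty_bound {q : ℕ} {χ : DirichletCharacter ℂ q} {z : ℕ} {F : ℕ → ℂ} (h : Ty χ z F) (n : ℕ) :
    ‖F n‖ ≤ 1 + Real.log n := by
  have hl : 0 ≤ Real.log (n : ℝ) := Real.log_natCast_nonneg n
  have h1 : ‖χ (n : ZMod q)‖ ≤ 1 := DirichletCharacter.norm_le_one χ _
  rcases h with h | h | h
  · rw [h]
    unfold gmu
    split_ifs
    · rw [norm_mul]
      have h2 : ‖((ArithmeticFunction.moebius n : ℤ) : ℂ)‖ ≤ 1 := by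
        rw [Complex.norm_intCast]
        exact_mod_cast ArithmeticFunction.abs_moebius_le_one
      calc ‖χ (n : ZMod q)‖ * ‖((ArithmeticFunction.moebius n : ℤ) : ℂ)‖ ≤ 1 * 1 :=
            mul_le_mul h1 h2 (norm_nonneg _) (by norm_num)
        _ ≤ _ := by linarith
    · rw [norm_zero]
      linarith
  · rw [h]
    linarith
  · rw [h, norm_mul, Complex.norm_real, Real.norm_eq_abs, abs_of_nonneg hl]
    calc ‖χ (n : ZMod q)‖ * Real.log n ≤ 1 * Real.log n := mul_le_mul_of_nonneg_right h1 hl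
      _ ≤ _ := by linarith

/-- a block of the cut Moebius function beyond the cut is zero -/
lemma DD_gmu_zero {q : ℕ} {χ : DirichletCharacter ℂ q} {z M u v : ℕ} (hz : z < M) (hu : M ≤ u + 1) (τ : ℝ) :
    DD (gmu (fun n : ℕ => χ (n : ZMod q)) z) u v τ = 0 := by
  unfold DD
  apply Finset.sum_eq_zero
  intro n hn
  have := (Finset.mem_Ioc.mp hn).1
  unfold gmu
  rw [if_neg (by omega), zero_mul]

/-- long blocks, up to the square of the height -/
lemma caseA1 (hFMB : S_FMB) {δ : ℝ} (hδ0 : 0 < δ) (hδ : δ ≤ 1 / 100) :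
    ∃ C : ℕ, ∀ X : ℝ, Real.exp 2 ≤ X → ∀ (q : ℕ) (_ : NeZero q) (χ : DirichletCharacter ℂ q),
    ∀ T a b : ℝ, 3 ≤ T → T ≤ X ^ (5 / 6 - δ) →
    (a = T ∧ b = 2 * T) ∨ (a = -(2 * T) ∧ b = -T) → ∀ (F : ℕ → ℂ) (M u v : ℕ),
    (F = (fun n : ℕ => χ (n : ZMod q)) ∨ F = fun n : ℕ => χ (n : ZMod q) * (Real.log n : ℂ)) →
    X ^ (1 / 2 - δ / 4) < (M : ℝ) → (M : ℝ) ≤ T ^ 2 → M ≤ u + 1 → v ≤ 2 * M →
    (∀ τ ∈ Set.Icc a b, ‖DD F u v τ‖ ≤ M) →
    ∫ τ in a..b, (ww X M F u v τ) ^ (2 - δ) ≤ C * q ^ C * Real.log X ^ C := by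
  obtain ⟨C, hC⟩ := hFMB
  refine ⟨C + 1, ?_⟩
  intro X hX q hq χ T a b hT3 hT hab F M u v hF hM hMT hMu hvM hD
  have hX0 : 0 < X := lt_of_lt_of_le (Real.exp_pos 2) hX
  have hX1 : 1 < X := lt_of_lt_of_le (by
    have := Real.add_one_lt_exp (show (2 : ℝ) ≠ 0 by norm_num)
    linarith) hX
  set L := Real.log X with hL
  have hL2 : 2 ≤ L := by
    rw [hL, Real.le_log_iff_exp_le hX0]
    exact hX
  have hM1' : 1 < (M : ℝ) := lt_of_lt_of_le (Real.one_lt_rpow hX1 (by linarith)) hM.le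
  have hM0 : 0 < (M : ℝ) := by linarith
  have hMn : 1 ≤ M := by
    have : 0 < M := by exact_mod_cast hM0
    omega
  have hlM : 0 < Real.log M := Real.log_pos hM1'
  set lam : ℝ := Real.log M / L with hlam
  have hlam0 : 0 < lam := by positivity
  have hXlam : X ^ lam = M := by
    rw [hlam, Real.rpow_def_of_pos hX0, ← hL, mul_div_cancel₀ _ (by linarith : L ≠ 0), Real.exp_log hM0]
  have hlam2 : 1 / 2 - δ / 4 < lam := by
    rw [hlam, lt_div_iff₀ (by linarith)]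
    have := Real.log_lt_log (Real.rpow_pos_of_pos hX0 _) hM
    rwa [Real.log_rpow hX0] at this
  have hinv : Real.log X / Real.log M = 1 / lam := by
    rw [hlam, one_div_div]
  have hT' : T ≤ X ^ (1 - δ / 2) := by
    refine hT.trans ?_
    apply Real.rpow_le_rpow_of_exponent_le hX1.le
    linarith
  have hT0 : 0 < T := by linarith
  have habl : a ≤ b := by
    rcases hab with ⟨h1, h2⟩ | ⟨h1, h2⟩ <;> linarith
  have habT : b - a = T := by
    rcases hab with ⟨h1, h2⟩ | ⟨h1, h2⟩ <;> linarith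
  have hDc : Continuous (DD F u v) := DD_cont F u v
  have hwc : Continuous (fun τ => ww X M F u v τ ^ (2 - δ)) :=
    (ww_cont F u v (by rw [hinv]; positivity)).rpow_const (fun _ => Or.inr (by linarith))
  have hp : ∀ τ ∈ Set.Icc a b, ww X M F u v τ ^ (2 - δ) ≤
      X ^ (-(1 - δ / 2)) + (1 / (T * M ^ 2)) * ‖DD F u v τ‖ ^ 4 := by
    intro τ hτ
    set A : ℝ := ‖DD F u v τ‖ / M with hA
    have hA0 : 0 ≤ A := by positivity
    have hDA : ‖DD F u v τ‖ = M * A := by rw [hA]; field_simp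
    set w : ℝ := ww X M F u v τ with hw
    have hwA : w = A ^ (1 / lam) := by rw [hw, ww, hinv]
    have hw0 : 0 ≤ w := by rw [hwA]; positivity
    have hwlam : w ^ lam = A := by
      rw [hwA, ← Real.rpow_mul hA0, one_div, inv_mul_cancel₀ hlam0.ne', Real.rpow_one]
    rcases le_or_gt w (X ^ (-(1 / 2) : ℝ)) with h1 | h1
    · have h2 := P1 hX1 hw0 hδ h1
      have h3 : 0 ≤ (1 / (T * M ^ 2)) * ‖DD F u v τ‖ ^ 4 := by positivity
      linarith
    · have h2 := P2 hX1 hlam2 h1 hT'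
      have h3 : w ^ (2 - δ) ≤ (1 / (T * M ^ 2)) * ‖DD F u v τ‖ ^ 4 := by
        have e1 : (1 / (T * M ^ 2)) * ‖DD F u v τ‖ ^ 4 = ((M : ℝ) ^ 2 * A ^ 4) / T := by
          rw [hDA]
          field_simp
        rw [e1, le_div_iff₀ hT0]
        rwa [hXlam, hwlam] at h2
      have h4 : 0 ≤ X ^ (-(1 - δ / 2)) := (Real.rpow_pos_of_pos hX0 _).le
      linarith
  have hc2 : Continuous (fun τ : ℝ => X ^ (-(1 - δ / 2)) + (1 / (T * M ^ 2)) * ‖DD F u v τ‖ ^ 4) :=
    continuous_const.add (continuous_const.mul (hDc.norm.pow 4))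
  have h1 : ∫ τ in a..b, ww X M F u v τ ^ (2 - δ) ≤
      ∫ τ in a..b, (X ^ (-(1 - δ / 2)) + (1 / (T * M ^ 2)) * ‖DD F u v τ‖ ^ 4) :=
    intervalIntegral.integral_mono_on habl (hwc.intervalIntegrable _ _) (hc2.intervalIntegrable _ _) hp
  have h2 : ∫ τ in a..b, (X ^ (-(1 - δ / 2)) + (1 / (T * M ^ 2)) * ‖DD F u v τ‖ ^ 4) =
      T * X ^ (-(1 - δ / 2)) + (1 / (T * M ^ 2)) * ∫ τ in a..b, ‖DD F u v τ‖ ^ 4 := by
    have hc3 : Continuous (fun τ : ℝ => (1 / (T * M ^ 2)) * ‖DD F u v τ‖ ^ 4) :=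
      continuous_const.mul (hDc.norm.pow 4)
    have hc4 : Continuous (fun _ : ℝ => X ^ (-(1 - δ / 2))) := continuous_const
    rw [intervalIntegral.integral_add (hc4.intervalIntegrable a b) (hc3.intervalIntegrable a b),
      intervalIntegral.integral_const, intervalIntegral.integral_const_mul, habT, smul_eq_mul]
  have h3 : ∫ τ in a..b, ‖DD F u v τ‖ ^ 4 ≤ C * (q : ℝ) ^ C * T * M ^ 2 * Real.log T ^ C := by
    have := hC q hq χ F M u v T hF hMn hMu hvM hT3 hMT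
    rcases hab with ⟨h1, h2⟩ | ⟨h1, h2⟩
    · rw [h1, h2]; exact this.1
    · rw [h1, h2]; exact this.2
  have h4 : T * X ^ (-(1 - δ / 2)) ≤ 1 := by
    rw [Real.rpow_neg hX0.le, ← div_eq_mul_inv]
    exact (div_le_one (Real.rpow_pos_of_pos hX0 _)).mpr hT'
  have hlogT : Real.log T ≤ L := by
    have h5 := Real.log_le_log hT0 hT
    rw [Real.log_rpow hX0] at h5
    refine h5.trans ?_
    calc (5 / 6 - δ) * L ≤ 1 * L := by
          apply mul_le_mul_of_nonneg_right _ (by linarith)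
          linarith
      _ = L := one_mul _
  have hlogT0 : 0 ≤ Real.log T := Real.log_nonneg (by linarith)
  have hq1 : (1 : ℝ) ≤ q := by
    have := NeZero.one_le (n := q)
    exact_mod_cast this
  have hL1 : 1 ≤ L := by linarith
  have h5 : (1 / (T * M ^ 2)) * ∫ τ in a..b, ‖DD F u v τ‖ ^ 4 ≤ C * (q : ℝ) ^ C * L ^ C := by
    calc (1 / (T * M ^ 2)) * ∫ τ in a..b, ‖DD F u v τ‖ ^ 4
        ≤ (1 / (T * M ^ 2)) * (C * (q : ℝ) ^ C * T * M ^ 2 * Real.log T ^ C) :=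
          mul_le_mul_of_nonneg_left h3 (by positivity)
      _ = C * (q : ℝ) ^ C * Real.log T ^ C := by field_simp
      _ ≤ C * (q : ℝ) ^ C * L ^ C := by
          apply mul_le_mul_of_nonneg_left _ (by positivity)
          exact pow_le_pow_left₀ hlogT0 hlogT C
  calc ∫ τ in a..b, ww X M F u v τ ^ (2 - δ) ≤ 1 + C * (q : ℝ) ^ C * L ^ C := by linarith
    _ ≤ (q : ℝ) ^ C * L ^ C + C * (q : ℝ) ^ C * L ^ C := by
        have : (1 : ℝ) * 1 ≤ (q : ℝ) ^ C * L ^ C :=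
          mul_le_mul (one_le_pow₀ hq1) (one_le_pow₀ hL1) (by norm_num) (by positivity)
        linarith
    _ = ((C + 1 : ℕ) : ℝ) * (q : ℝ) ^ C * L ^ C := by push_cast; ring
    _ ≤ ((C + 1 : ℕ) : ℝ) * (q : ℝ) ^ (C + 1) * L ^ (C + 1) := by
        have e1 := pow_le_pow_right₀ hq1 (Nat.le_succ C)
        have e2 := pow_le_pow_right₀ hL1 (Nat.le_succ C)
        exact mul_le_mul (mul_le_mul_of_nonneg_left e1 (by positivity)) e2 (by positivity) (by positivity)

/-- long blocks, beyond the square of the height -/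
lemma caseA2 (hSMB : S_SMB) {δ : ℝ} (hδ0 : 0 < δ) (hδ : δ ≤ 1 / 100) :
    ∃ C : ℕ, ∀ X : ℝ, Real.exp 2 ≤ X → ∀ (q : ℕ) (_ : NeZero q) (χ : DirichletCharacter ℂ q),
    ∀ T a b : ℝ, 3 ≤ T →
    (a = T ∧ b = 2 * T) ∨ (a = -(2 * T) ∧ b = -T) → ∀ (F : ℕ → ℂ) (M u v : ℕ),
    (F = (fun n : ℕ => χ (n : ZMod q)) ∨ F = fun n : ℕ => χ (n : ZMod q) * (Real.log n : ℂ)) →
    T ^ 2 < (M : ℝ) → (M : ℝ) ≤ X ^ (3 / 2 : ℝ) → M ≤ u + 1 → v ≤ 2 * M →
    (∀ τ ∈ Set.Icc a b, ‖DD F u v τ‖ ≤ M) →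
    ∫ τ in a..b, (ww X M F u v τ) ^ (2 - δ) ≤ C * q ^ C * Real.log X ^ C := by
  obtain ⟨C, hC1, hC⟩ := hSMB
  refine ⟨⌈27 * C⌉₊ + 2, ?_⟩
  intro X hX q hq χ T a b hT3 hab F M u v hF hMT hM hMu hvM hD
  have hX0 : 0 < X := lt_of_lt_of_le (Real.exp_pos 2) hX
  have hX1 : 1 < X := lt_of_lt_of_le (by
    have := Real.add_one_lt_exp (show (2 : ℝ) ≠ 0 by norm_num)
    linarith) hX
  set L := Real.log X with hL
  have hL2 : 2 ≤ L := by
    rw [hL, Real.le_log_iff_exp_le hX0]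
    exact hX
  have hT0 : 0 < T := by linarith
  have hM1' : 1 < (M : ℝ) := by nlinarith
  have hM0 : 0 < (M : ℝ) := by linarith
  have hMn : 1 ≤ M := by
    have : 0 < M := by exact_mod_cast hM0
    omega
  have hlM : 0 < Real.log M := Real.log_pos hM1'
  set lam : ℝ := Real.log M / L with hlam
  have hlam0 : 0 < lam := by positivity
  have hlam2 : lam ≤ 3 / 2 := by
    rw [hlam, div_le_iff₀ (by linarith)]
    have := Real.log_le_log hM0 hM
    rwa [Real.log_rpow hX0] at this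
  have hlogM : Real.log M ≤ 3 / 2 * L := by
    rwa [hlam, div_le_iff₀ (by linarith)] at hlam2
  have hinv : Real.log X / Real.log M = 1 / lam := by
    rw [hlam, one_div_div]
  have habl : a ≤ b := by
    rcases hab with ⟨h1, h2⟩ | ⟨h1, h2⟩ <;> linarith
  have habT : b - a = T := by
    rcases hab with ⟨h1, h2⟩ | ⟨h1, h2⟩ <;> linarith
  have hDc : Continuous (DD F u v) := DD_cont F u v
  have hwc : Continuous (fun τ => ww X M F u v τ ^ (2 - δ)) :=
    (ww_cont F u v (by rw [hinv]; positivity)).rpow_const (fun _ => Or.inr (by linarith))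
  have hq1 : (1 : ℝ) ≤ q := by
    have := NeZero.one_le (n := q)
    exact_mod_cast this
  have hp : ∀ τ ∈ Set.Icc a b, ww X M F u v τ ^ (2 - δ) ≤ 27 * C * q ^ 2 * L ^ 2 / T := by
    intro τ hτ
    set A : ℝ := ‖DD F u v τ‖ / M with hA
    have hA0 : 0 ≤ A := by positivity
    have hA1 : A ≤ 1 := by
      rw [hA, div_le_one hM0]
      exact hD τ hτ
    set w : ℝ := ww X M F u v τ with hw
    have hwA : w = A ^ (1 / lam) := by rw [hw, ww, hinv]
    have h1 : w ^ (2 - δ) ≤ A := by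
      rw [hwA, ← Real.rpow_mul hA0]
      calc A ^ (1 / lam * (2 - δ)) ≤ A ^ (1 : ℝ) := by
            rcases hA0.eq_or_lt with h0 | h0
            · rw [← h0, Real.rpow_one, Real.zero_rpow]
              have : 0 < 1 / lam * (2 - δ) := mul_pos (by positivity) (by linarith)
              exact this.ne'
            · apply Real.rpow_le_rpow_of_exponent_ge h0 hA1
              rw [one_div, inv_mul_eq_div, le_div_iff₀ hlam0]
              linarith
        _ = A := Real.rpow_one A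
    have hτT : T ≤ |τ| ∧ |τ| ≤ 2 * T := by
      rcases hab with ⟨h1, h2⟩ | ⟨h1, h2⟩
      · rw [h1, h2] at hτ
        rw [abs_of_nonneg (by linarith [hτ.1])]
        exact hτ
      · rw [h1, h2] at hτ
        rw [abs_of_nonpos (by linarith [hτ.2])]
        exact ⟨by linarith [hτ.2], by linarith [hτ.1]⟩
    have h2 := hC q hq χ M u v τ hMn hMu hvM (by linarith [hτT.1])
    have hlM1 : 1 ≤ 1 + Real.log M := by linarith
    have hbr : 0 ≤ √|τ| + M / |τ| := by positivity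
    have h3 : ‖DD F u v τ‖ ≤ C * q ^ 2 * (√|τ| + M / |τ|) * (1 + Real.log M) ^ 2 := by
      rcases hF with hF | hF
      · have h4 := h2.1
        unfold DD
        rw [hF]
        refine h4.trans ?_
        apply mul_le_mul_of_nonneg_left _ (by positivity)
        exact le_self_pow₀ hlM1 (by norm_num)
      · unfold DD
        rw [hF]
        exact h2.2
    have h5 : √|τ| + M / |τ| ≤ 3 * (M / T) := by
      have e1 : √|τ| ≤ 2 * T := by
        rw [Real.sqrt_le_left (by linarith)]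
        nlinarith [hτT.2]
      have e2 : T ≤ M / T := by
        rw [le_div_iff₀ hT0]
        nlinarith
      have e3 : (M : ℝ) / |τ| ≤ M / T := div_le_div_of_nonneg_left hM0.le hT0 hτT.1
      linarith
    have h6 : (1 + Real.log M) ^ 2 ≤ (3 * L) ^ 2 := by
      apply pow_le_pow_left₀ (by linarith)
      linarith
    have h7 : A ≤ 27 * C * q ^ 2 * L ^ 2 / T := by
      rw [hA, div_le_iff₀ hM0]
      calc ‖DD F u v τ‖ ≤ C * q ^ 2 * (√|τ| + M / |τ|) * (1 + Real.log M) ^ 2 := h3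
        _ ≤ C * q ^ 2 * (3 * (M / T)) * (3 * L) ^ 2 := by gcongr
        _ = 27 * C * q ^ 2 * L ^ 2 / T * M := by ring
    exact h1.trans h7
  have h1 : ∫ τ in a..b, ww X M F u v τ ^ (2 - δ) ≤ ∫ τ in a..b, (27 * C * q ^ 2 * L ^ 2 / T) :=
    intervalIntegral.integral_mono_on habl (hwc.intervalIntegrable _ _)
      (continuous_const.intervalIntegrable _ _) hp
  have h2 : ∫ τ in a..b, (27 * C * (q : ℝ) ^ 2 * L ^ 2 / T) = 27 * C * q ^ 2 * L ^ 2 := by
    rw [intervalIntegral.integral_const, habT, smul_eq_mul]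
    field_simp
  have hL1 : 1 ≤ L := by linarith
  calc ∫ τ in a..b, ww X M F u v τ ^ (2 - δ) ≤ 27 * C * q ^ 2 * L ^ 2 := by linarith
    _ ≤ ((⌈27 * C⌉₊ + 2 : ℕ) : ℝ) * q ^ (⌈27 * C⌉₊ + 2) * L ^ (⌈27 * C⌉₊ + 2) := by
        have e1 : 27 * C ≤ ((⌈27 * C⌉₊ + 2 : ℕ) : ℝ) := by
          have := Nat.le_ceil (27 * C)
          push_cast
          linarith
        have e2 := pow_le_pow_right₀ hq1 (show 2 ≤ ⌈27 * C⌉₊ + 2 by omega)
        have e3 := pow_le_pow_right₀ hL1 (show 2 ≤ ⌈27 * C⌉₊ + 2 by omega)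
        exact mul_le_mul (mul_le_mul e1 e2 (by positivity) (by positivity)) e3 (by positivity) (by positivity)

end Pool.Agent.V5helper44.CR6
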