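import Mathlib
import Pool.Agent.V5helper44.CR6.CELc

/-!
# Project CR6, job CEL, part 4: the assembly
-/

set_option autoImplicit false

namespace Pool.Agent.V5helper44.CR6

open Finset Filter MeasureTheory
open Pool.Agent.Q236.CR Pool.Agent.V5helper51.CR6

/-- one block -/
lemma spl (hSMB : S_SMB) (hFMB : S_FMB) (hHMV : S_HMV) (hDV : S_DV) {δ e1 : ℝ} (hδ0 : 0 < δ)
    (hδ : δ ≤ 1 / 100) (he1 : 0 < e1) :
    ∃ C : ℕ, ∀ X : ℝ, Real.exp 2 ≤ X → 8 * X ^ (1 / 3 : ℝ) ≤ X ^ (1 / 2 - δ / 4) →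
    ∀ (q : ℕ) (_ : NeZero q) (χ : DirichletCharacter ℂ q),
    ∀ T a b : ℝ, 3 ≤ T → T ≤ X ^ (5 / 6 - δ) →
    (a = T ∧ b = 2 * T) ∨ (a = -(2 * T) ∧ b = -T) → ∀ z : ℕ, (z : ℝ) ≤ 8 * X ^ (1 / 3 : ℝ) →
    ∀ (F : ℕ → ℂ) (M u v : ℕ), Ty χ z F →
    X ^ e1 ≤ M → (M : ℝ) ≤ X ^ (3 / 2 : ℝ) → M ≤ u + 1 → v ≤ 2 * M →
    (∀ τ ∈ Set.Icc a b, ‖DD F u v τ‖ ≤ M) →
    ∫ τ in a..b, (ww X M F u v τ) ^ (2 - δ) ≤ C * q ^ C * Real.log X ^ C := by
  obtain ⟨CB, hCB⟩ := caseB hHMV hDV hδ0 hδ he1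
  obtain ⟨C1, hC1⟩ := caseA1 hFMB hδ0 hδ
  obtain ⟨C2, hC2⟩ := caseA2 hSMB hδ0 hδ
  refine ⟨CB + C1 + C2, ?_⟩
  intro X hX hX8 q hq χ T a b hT3 hT hab z hz F M u v hF hM1 hM2 hMu hvM hD
  have hX0 : 0 < X := lt_of_lt_of_le (Real.exp_pos 2) hX
  have hX1 : 1 < X := lt_of_lt_of_le (by
    have := Real.add_one_lt_exp (show (2 : ℝ) ≠ 0 by norm_num)
    linarith) hX
  have hL2 : 2 ≤ Real.log X := by
    rw [Real.le_log_iff_exp_le hX0]
    exact hX
  have hL1 : 1 ≤ Real.log X := by linarith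
  have hq1 : (1 : ℝ) ≤ q := by
    have := NeZero.one_le (n := q)
    exact_mod_cast this
  have hM1' : 1 < (M : ℝ) := lt_of_lt_of_le (Real.one_lt_rpow hX1 he1) hM1
  have hM0 : 0 < (M : ℝ) := by linarith
  have hMn : 1 ≤ M := by
    have : 0 < M := by exact_mod_cast hM0
    omega
  have hlM : 0 < Real.log M := Real.log_pos hM1'
  have habl : a ≤ b := by
    rcases hab with ⟨h1, h2⟩ | ⟨h1, h2⟩ <;> linarith
  have habT : b - a = T := by
    rcases hab with ⟨h1, h2⟩ | ⟨h1, h2⟩ <;> linarith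
  have ha : -(2 * T) ≤ a := by
    rcases hab with ⟨h1, h2⟩ | ⟨h1, h2⟩ <;> linarith
  have hb : b ≤ 2 * T := by
    rcases hab with ⟨h1, h2⟩ | ⟨h1, h2⟩ <;> linarith
  rcases le_or_gt (M : ℝ) (X ^ (1 / 2 - δ / 4)) with h1 | h1
  · have hFb : ∀ n ∈ Ioc u v, ‖F n‖ ≤ 3 * Real.log X := by
      intro n hn
      have h2 := Ty_bound hF n
      have h3 := Finset.mem_Ioc.mp hn
      have hn0 : (0 : ℝ) < n := by
        have : 0 < n := by omega
        exact_mod_cast this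
      have h4 : (n : ℝ) ≤ 2 * M := by
        have : n ≤ 2 * M := by omega
        exact_mod_cast this
      have h5 : Real.log n ≤ Real.log 2 + Real.log M := by
        rw [← Real.log_mul (by norm_num) hM0.ne']
        exact Real.log_le_log hn0 h4
      have h6 : Real.log M ≤ (1 / 2 - δ / 4) * Real.log X := by
        have := Real.log_le_log hM0 h1
        rwa [Real.log_rpow hX0] at this
      have h7 : (1 / 2 - δ / 4) * Real.log X ≤ 1 * Real.log X := by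
        apply mul_le_mul_of_nonneg_right _ (by linarith)
        linarith
      have h8 := Real.log_two_lt_d9
      linarith
    have h2 := hCB X hX T a b (by linarith) hT habT ha hb F M u v hM1 h1 hMu hvM hFb hD
    refine h2.trans ?_
    calc (CB : ℝ) * Real.log X ^ CB ≤ CB * (q : ℝ) ^ CB * Real.log X ^ CB := by
          apply mul_le_mul_of_nonneg_right _ (by positivity)
          exact le_mul_of_one_le_right (Nat.cast_nonneg _) (one_le_pow₀ hq1)
      _ ≤ _ := mono_C (by omega) hq1 hL1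
  · rcases hF with hF | hF
    · have hzM : z < M := by
        have : (z : ℝ) < M := lt_of_le_of_lt (hz.trans hX8) h1
        exact_mod_cast this
      have h2 : ∀ τ, ww X M F u v τ ^ (2 - δ) = 0 := by
        intro τ
        have h3 : DD F u v τ = 0 := by
          rw [hF]
          exact DD_gmu_zero hzM hMu τ
        unfold ww
        rw [h3, norm_zero, zero_div, Real.zero_rpow (by positivity), Real.zero_rpow (by linarith)]
      simp_rw [h2]
      rw [intervalIntegral.integral_zero]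
      positivity
    · rcases le_or_gt (M : ℝ) (T ^ 2) with h2 | h2
      · exact (hC1 X hX q hq χ T a b hT3 hT hab F M u v hF h1 h2 hMu hvM hD).trans
          (mono_C (by omega) hq1 hL1)
      · exact (hC2 X hX q hq χ T a b hT3 hab F M u v hF h2 hM2 hMu hvM hD).trans
          (mono_C (by omega) hq1 hL1)

/-- the product of several normalised blocks is bounded by the powers of the largest one -/
lemma prod_le {r : ℕ} (hr : r ≤ 6) (A w lam : Fin r → ℝ) (S : Finset (Fin r)) (hS : S.Nonempty) {L δ e1 : ℝ}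
    (hδ : δ ≤ 1 / 100) (he : e1 = δ / 24) (hL : 1 ≤ L) (hA0 : ∀ i, 0 ≤ A i)
    (hAt : ∀ i, i ∉ S → A i ≤ L ^ 2) (hw0 : ∀ i ∈ S, 0 ≤ w i) (hw1 : ∀ i ∈ S, w i ≤ 1)
    (hlam0 : ∀ i ∈ S, 0 ≤ lam i) (hwA : ∀ i ∈ S, A i = w i ^ lam i)
    (hsum : 1 - 6 * e1 ≤ ∑ i ∈ S, lam i) :
    ∏ i, A i ^ 2 ≤ L ^ 24 * ∑ i ∈ S, w i ^ (2 - δ / 2) := by
  classical
  obtain ⟨i0, hi0, hmax⟩ := Finset.exists_max_image S w hS
  have h1 : ∏ i ∈ S, A i ≤ w i0 ^ (1 - 6 * e1) := by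
    calc ∏ i ∈ S, A i = ∏ i ∈ S, w i ^ lam i := Finset.prod_congr rfl hwA
      _ ≤ ∏ i ∈ S, w i0 ^ lam i := by
          apply Finset.prod_le_prod
          · intro i hi
            exact Real.rpow_nonneg (hw0 i hi) _
          · intro i hi
            exact Real.rpow_le_rpow (hw0 i hi) (hmax i hi) (hlam0 i hi)
      _ = w i0 ^ (∑ i ∈ S, lam i) := (Real.rpow_sum_of_nonneg (hw0 i0 hi0) hlam0).symm
      _ ≤ w i0 ^ (1 - 6 * e1) :=
          Real.rpow_le_rpow_of_exponent_ge' (hw0 i0 hi0) (hw1 i0 hi0) (by rw [he]; linarith) hsum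
  have h2 : ∏ i, A i ^ 2 = (∏ i ∈ S, A i) ^ 2 * ∏ i ∈ Sᶜ, A i ^ 2 := by
    rw [← Finset.prod_pow, Finset.prod_mul_prod_compl]
  have h3 : ∏ i ∈ Sᶜ, A i ^ 2 ≤ L ^ 24 := by
    calc ∏ i ∈ Sᶜ, A i ^ 2 ≤ ∏ _i ∈ Sᶜ, L ^ 4 := by
          apply Finset.prod_le_prod
          · intro i _
            positivity
          · intro i hi
            calc A i ^ 2 ≤ (L ^ 2) ^ 2 := pow_le_pow_left₀ (hA0 i) (hAt i (by simpa using hi)) 2
              _ = L ^ 4 := by ring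
      _ = (L ^ 4) ^ Sᶜ.card := by rw [Finset.prod_const]
      _ ≤ (L ^ 4) ^ 6 := by
          apply pow_le_pow_right₀ (one_le_pow₀ hL)
          calc Sᶜ.card ≤ Fintype.card (Fin r) := Finset.card_le_univ _
            _ = r := Fintype.card_fin r
            _ ≤ 6 := hr
      _ = L ^ 24 := by ring
  have h4 : (∏ i ∈ S, A i) ^ 2 ≤ w i0 ^ (2 - δ / 2) := by
    calc (∏ i ∈ S, A i) ^ 2 ≤ (w i0 ^ (1 - 6 * e1)) ^ 2 :=
          pow_le_pow_left₀ (Finset.prod_nonneg fun i _ => hA0 i) h1 2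
      _ = w i0 ^ (2 - δ / 2) := by
          rw [← Real.rpow_natCast, ← Real.rpow_mul (hw0 i0 hi0), he]
          congr 1
          push_cast
          ring
  have h5 : w i0 ^ (2 - δ / 2) ≤ ∑ i ∈ S, w i ^ (2 - δ / 2) :=
    Finset.single_le_sum (f := fun i => w i ^ (2 - δ / 2)) (fun i hi => Real.rpow_nonneg (hw0 i hi) _) hi0
  rw [h2, mul_comm]
  calc (∏ i ∈ Sᶜ, A i ^ 2) * (∏ i ∈ S, A i) ^ 2 ≤ L ^ 24 * w i0 ^ (2 - δ / 2) :=
        mul_le_mul h3 h4 (by positivity) (by positivity)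
    _ ≤ _ := by gcongr

/-- trivial bound for a block -/
lemma triv_block {q : ℕ} {χ : DirichletCharacter ℂ q} {z : ℕ} {F : ℕ → ℂ} (h : Ty χ z F) {M u v : ℕ}
    (hM : 1 ≤ M) (hMu : M ≤ u + 1) (hv : v ≤ 2 * M) {L : ℝ} (hL : 8 ≤ L) (hMX : Real.log M ≤ 3 / 2 * L) (τ : ℝ) :
    ‖DD F u v τ‖ ≤ M * L ^ 2 := by
  have hM0 : (1 : ℝ) ≤ M := by exact_mod_cast hM
  have h1 : ∀ n ∈ Ioc u v, ‖F n * nt τ n‖ ≤ 2 + 3 / 2 * L := by
    intro n hn
    have h2 := Ty_bound h n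
    have h3 := Finset.mem_Ioc.mp hn
    have hn0 : 0 < n := by omega
    have hn0' : (0 : ℝ) < n := by exact_mod_cast hn0
    have h4 : (n : ℝ) ≤ 2 * M := by
      have : n ≤ 2 * M := by omega
      exact_mod_cast this
    have h5 : Real.log n ≤ Real.log 2 + Real.log M := by
      rw [← Real.log_mul (by norm_num) (by linarith)]
      exact Real.log_le_log hn0' h4
    have h8 := Real.log_two_lt_d9
    have h9 : ‖nt τ n‖ = 1 := by
      unfold nt
      have e : -(τ : ℂ) * Complex.I = ((-τ : ℝ) : ℂ) * Complex.I := by push_cast; ring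
      rw [Complex.norm_natCast_cpow_of_pos hn0, e]
      simp
    rw [norm_mul, h9, mul_one]
    linarith
  calc ‖DD F u v τ‖ ≤ ∑ n ∈ Ioc u v, ‖F n * nt τ n‖ := norm_sum_le _ _
    _ ≤ ∑ n ∈ Ioc u v, (2 + 3 / 2 * L) := Finset.sum_le_sum h1
    _ = (v - u : ℕ) * (2 + 3 / 2 * L) := by rw [Finset.sum_const, Nat.card_Ioc, nsmul_eq_mul]
    _ ≤ (2 * M) * (2 + 3 / 2 * L) := by
        apply mul_le_mul_of_nonneg_right _ (by linarith)
        have : v - u ≤ 2 * M := by omega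
        exact_mod_cast this
    _ = M * (4 + 3 * L) := by ring
    _ ≤ M * L ^ 2 := by
        apply mul_le_mul_of_nonneg_left _ (by linarith)
        nlinarith

/-- the cut Moebius block as a Moebius block -/
lemma DD_gmu {q : ℕ} {χ : DirichletCharacter ℂ q} {z u v : ℕ} (τ : ℝ) :
    DD (gmu (fun n : ℕ => χ (n : ZMod q)) z) u v τ =
      ∑ n ∈ Finset.Ioc u (min v z), (χ (n : ZMod q) * ((ArithmeticFunction.moebius n : ℤ) : ℂ)) * nt τ n := by
  unfold DD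
  symm
  apply Finset.sum_subset_zero_on_sdiff
  · intro n hn
    rw [Finset.mem_Ioc] at hn ⊢
    exact ⟨hn.1, hn.2.trans (min_le_left _ _)⟩
  · intro n hn
    rw [Finset.mem_sdiff, Finset.mem_Ioc, Finset.mem_Ioc] at hn
    unfold gmu
    rw [if_neg (by omega), zero_mul]
  · intro n hn
    rw [Finset.mem_Ioc] at hn
    unfold gmu
    rw [if_pos (by omega)]

end Pool.Agent.V5helper44.CR6
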