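import Mathlib
import Pool.Agent.V5helper44.CR6.CELd

/-!
# Project CR6, job CEL: one product of cells, `cel`
-/

set_option autoImplicit false

namespace Pool.Agent.V5helper44.CR6

open Finset Filter MeasureTheory
open Pool.Agent.Q236.CR Pool.Agent.V5helper51.CR6

/-- from the level estimate and the pointwise saving to the product of the blocks -/
lemma assemble {r : ℕ} (hr : r ≤ 6) {δ e1 X L : ℝ} (hδ0 : 0 < δ) (hδ : δ ≤ 1 / 100) (he : e1 = δ / 24) (hX1 : 1 < X)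
    (hL : L = Real.log X) (hL8 : 8 ≤ L) (F : Fin r → ℕ → ℂ) (M u v : Fin r → ℕ) (hM1 : ∀ i, 1 ≤ M i)
    (hMX : ∀ i, Real.log (M i) ≤ 3 / 2 * L) (hprod1 : X ≤ ∏ i, (M i : ℝ))
    (hprod2 : ∏ i, (M i : ℝ) ≤ 18 ^ 6 * X) (a b : ℝ) (hab : a ≤ b) (R R' : ℕ) (K' : ℕ)
    (hK' : (R : ℝ) ≤ K' * (δ / 4))
    (htriv : ∀ i, ∀ τ ∈ Set.Icc a b, ‖DD (F i) (u i) (v i) τ‖ ≤ M i * L ^ 2)
    (hsave : ∀ i, X ^ e1 ≤ (M i : ℝ) → ∀ τ ∈ Set.Icc a b, ‖DD (F i) (u i) (v i) τ‖ ≤ M i / L ^ K')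
    {Q : ℝ} (hQ : ∀ i, X ^ e1 ≤ (M i : ℝ) → ∫ τ in a..b, (ww X (M i) (F i) (u i) (v i) τ) ^ (2 - δ) ≤ Q)
    (hfin : 6 * (18 ^ 6) ^ 2 * Q * L ^ (24 + R') ≤ L ^ R) :
    ∫ τ in a..b, ∏ i, ‖DD (F i) (u i) (v i) τ‖ ^ 2 ≤ X ^ 2 / L ^ R' := by
  classical
  have hX0 : 0 < X := by linarith
  have hL0 : 0 < L := by linarith
  have hL1 : 1 ≤ L := by linarith
  set S : Finset (Fin r) := Finset.univ.filter (fun i => X ^ e1 ≤ (M i : ℝ)) with hS
  have hSm : ∀ i, i ∈ S ↔ X ^ e1 ≤ (M i : ℝ) := fun i => by rw [hS, Finset.mem_filter]; simp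
  have hM0 : ∀ i, (0 : ℝ) < M i := fun i => by exact_mod_cast hM1 i
  have hM1r : ∀ i, (1 : ℝ) ≤ M i := fun i => by exact_mod_cast hM1 i
  have hlogM0 : ∀ i, 0 ≤ Real.log (M i) := fun i => Real.log_nonneg (hM1r i)
  have he0 : 0 < e1 := by rw [he]; positivity
  have hlogS : ∀ i ∈ S, 0 < Real.log (M i) := by
    intro i hi
    apply Real.log_pos
    exact lt_of_lt_of_le (Real.one_lt_rpow hX1 he0) ((hSm i).mp hi)
  set lam : Fin r → ℝ := fun i => Real.log (M i) / L with hlam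
  have hlamS : ∀ i ∈ S, 0 < lam i := fun i hi => div_pos (hlogS i hi) hL0
  have hlam2 : ∀ i, lam i ≤ 3 / 2 := fun i => by
    simp only [hlam]
    rw [div_le_iff₀ hL0]
    exact hMX i
  -- the exponents
  have hsumall : 1 ≤ ∑ i, lam i := by
    simp only [hlam]
    rw [← Finset.sum_div, le_div_iff₀ hL0, one_mul, ← Real.log_prod (fun i _ => (hM0 i).ne'), hL]
    exact Real.log_le_log hX0 hprod1
  have hsumS : 1 - 6 * e1 ≤ ∑ i ∈ S, lam i := by
    have h1 : ∑ i ∈ Sᶜ, lam i ≤ 6 * e1 := by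
      calc ∑ i ∈ Sᶜ, lam i ≤ ∑ _i ∈ Sᶜ, e1 := by
            apply Finset.sum_le_sum
            intro i hi
            have h2 : ¬ X ^ e1 ≤ (M i : ℝ) := by
              rw [← hSm]
              simpa using hi
            push Not at h2
            simp only [hlam]
            rw [div_le_iff₀ hL0, hL]
            have h3 := Real.log_le_log (hM0 i) h2.le
            rwa [Real.log_rpow hX0] at h3
        _ = Sᶜ.card * e1 := by rw [Finset.sum_const, nsmul_eq_mul]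
        _ ≤ 6 * e1 := by
            apply mul_le_mul_of_nonneg_right _ he0.le
            have : Sᶜ.card ≤ 6 := by
              calc Sᶜ.card ≤ Fintype.card (Fin r) := Finset.card_le_univ _
                _ = r := Fintype.card_fin r
                _ ≤ 6 := hr
            exact_mod_cast this
    have h2 := Finset.sum_add_sum_compl S lam
    linarith
  have hSne : S.Nonempty := by
    by_contra hcon
    rw [Finset.not_nonempty_iff_eq_empty] at hcon
    rw [hcon, Finset.sum_empty] at hsumS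
    rw [he] at hsumS
    linarith
  -- continuity
  have hDc : ∀ i, Continuous (DD (F i) (u i) (v i)) := fun i => DD_cont _ _ _
  have hexp : ∀ i ∈ S, Real.log X / Real.log (M i) = 1 / lam i := by
    intro i _
    simp only [hlam]
    rw [one_div_div, hL]
  have hwc : ∀ i ∈ S, Continuous (ww X (M i) (F i) (u i) (v i)) := fun i hi =>
    ww_cont _ _ _ (by
      rw [hexp i hi]
      have := hlamS i hi
      positivity)
  -- the pointwise bound
  set PM : ℝ := ∏ i, (M i : ℝ) with hPM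
  have hPM0 : 0 < PM := Finset.prod_pos fun i _ => hM0 i
  have hp : ∀ τ ∈ Set.Icc a b, ∏ i, ‖DD (F i) (u i) (v i) τ‖ ^ 2 ≤
      (PM ^ 2 * L ^ 24 / L ^ R) * ∑ i ∈ S, ww X (M i) (F i) (u i) (v i) τ ^ (2 - δ) := by
    intro τ hτ
    set A : Fin r → ℝ := fun i => ‖DD (F i) (u i) (v i) τ‖ / M i with hA
    have hA0 : ∀ i, 0 ≤ A i := fun i => by simp only [hA]; exact div_nonneg (norm_nonneg _) (hM0 i).le
    have hsave' : ∀ i ∈ S, A i ≤ 1 / L ^ K' := by
      intro i hi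
      have h1 := hsave i ((hSm i).mp hi) τ hτ
      simp only [hA]
      rw [div_le_iff₀ (hM0 i)]
      refine h1.trans (le_of_eq ?_)
      ring
    have hLK : 1 / L ^ K' ≤ 1 := by
      rw [div_le_one (by positivity)]
      exact one_le_pow₀ hL1
    have hA1 : ∀ i ∈ S, A i ≤ 1 := fun i hi => (hsave' i hi).trans hLK
    have hwA : ∀ i ∈ S, ww X (M i) (F i) (u i) (v i) τ = A i ^ (1 / lam i) := by
      intro i hi
      unfold ww
      rw [hexp i hi]
    have hAw : ∀ i ∈ S, A i = ww X (M i) (F i) (u i) (v i) τ ^ lam i := by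
      intro i hi
      rw [hwA i hi, ← Real.rpow_mul (hA0 i), one_div, inv_mul_cancel₀ (hlamS i hi).ne', Real.rpow_one]
    have hw0 : ∀ i ∈ S, 0 ≤ ww X (M i) (F i) (u i) (v i) τ := fun i _ => ww_nonneg _ _ _ _ _ _
    have hw1 : ∀ i ∈ S, ww X (M i) (F i) (u i) (v i) τ ≤ 1 := by
      intro i hi
      rw [hwA i hi]
      have := hlamS i hi
      exact Real.rpow_le_one (hA0 i) (hA1 i hi) (by positivity)
    have h1 := prod_le hr A (fun i => ww X (M i) (F i) (u i) (v i) τ) lam S hSne hδ he hL1 hA0 (by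
      intro i _
      have h2 := htriv i τ hτ
      simp only [hA]
      rw [div_le_iff₀ (hM0 i)]
      linarith) hw0 hw1 (fun i hi => (hlamS i hi).le) hAw hsumS
    have h2 : ∏ i, ‖DD (F i) (u i) (v i) τ‖ ^ 2 = PM ^ 2 * ∏ i, A i ^ 2 := by
      rw [hPM, ← Finset.prod_pow, ← Finset.prod_mul_distrib]
      apply Finset.prod_congr rfl
      intro i _
      simp only [hA]
      have := (hM0 i).ne'
      field_simp
    have h3 : ∀ i ∈ S, ww X (M i) (F i) (u i) (v i) τ ^ (2 - δ / 2) ≤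
        (1 / L ^ R) * ww X (M i) (F i) (u i) (v i) τ ^ (2 - δ) := by
      intro i hi
      set w := ww X (M i) (F i) (u i) (v i) τ with hw
      have hwn : 0 ≤ w := hw0 i hi
      have e1 : w ^ (2 - δ / 2) = w ^ (δ / 2) * w ^ (2 - δ) := by
        rw [← Real.rpow_add_of_nonneg hwn (by positivity) (by linarith)]
        congr 1
        ring
      rw [e1]
      apply mul_le_mul_of_nonneg_right _ (Real.rpow_nonneg hwn _)
      have hl := hlamS i hi
      have e2 : w ≤ (1 / L ^ K') ^ (1 / 2 : ℝ) := by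
        rw [hw, hwA i hi]
        calc A i ^ (1 / lam i) ≤ A i ^ (1 / 2 : ℝ) := by
              apply Real.rpow_le_rpow_of_exponent_ge' (hA0 i) (hA1 i hi) (by norm_num)
              apply div_le_div_of_nonneg_left (by norm_num) hl
              linarith [hlam2 i]
          _ ≤ (1 / L ^ K') ^ (1 / 2 : ℝ) := Real.rpow_le_rpow (hA0 i) (hsave' i hi) (by norm_num)
      calc w ^ (δ / 2) ≤ ((1 / L ^ K') ^ (1 / 2 : ℝ)) ^ (δ / 2) :=
            Real.rpow_le_rpow hwn e2 (by positivity)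
        _ = L ^ (-(K' * (δ / 4)) : ℝ) := by
            rw [← Real.rpow_mul (by positivity), one_div, ← Real.rpow_natCast L K',
              ← Real.rpow_neg hL0.le, ← Real.rpow_mul hL0.le]
            congr 1
            ring
        _ ≤ L ^ (-(R : ℝ)) := by
            apply Real.rpow_le_rpow_of_exponent_le hL1
            linarith
        _ = 1 / L ^ R := by
            rw [Real.rpow_neg hL0.le, Real.rpow_natCast, one_div]
    calc ∏ i, ‖DD (F i) (u i) (v i) τ‖ ^ 2 = PM ^ 2 * ∏ i, A i ^ 2 := h2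
      _ ≤ PM ^ 2 * (L ^ 24 * ∑ i ∈ S, ww X (M i) (F i) (u i) (v i) τ ^ (2 - δ / 2)) := by gcongr
      _ ≤ PM ^ 2 * (L ^ 24 * ∑ i ∈ S, (1 / L ^ R) * ww X (M i) (F i) (u i) (v i) τ ^ (2 - δ)) := by
          gcongr with i hi
          exact h3 i hi
      _ = _ := by
          rw [← Finset.mul_sum]
          ring
  -- integrate
  have hi1 : Continuous (fun τ => ∏ i, ‖DD (F i) (u i) (v i) τ‖ ^ 2) :=
    continuous_finsetProd _ fun i _ => (hDc i).norm.pow 2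
  have hwc2 : ∀ i ∈ S, Continuous (fun τ => ww X (M i) (F i) (u i) (v i) τ ^ (2 - δ)) := fun i hi =>
    (hwc i hi).rpow_const (fun _ => Or.inr (by linarith))
  have hi2 : Continuous (fun τ => (PM ^ 2 * L ^ 24 / L ^ R) * ∑ i ∈ S, ww X (M i) (F i) (u i) (v i) τ ^ (2 - δ)) :=
    continuous_const.mul (continuous_finsetSum _ fun i hi => hwc2 i hi)
  have h1 : ∫ τ in a..b, ∏ i, ‖DD (F i) (u i) (v i) τ‖ ^ 2 ≤
      ∫ τ in a..b, (PM ^ 2 * L ^ 24 / L ^ R) * ∑ i ∈ S, ww X (M i) (F i) (u i) (v i) τ ^ (2 - δ) :=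
    intervalIntegral.integral_mono_on hab (hi1.intervalIntegrable _ _) (hi2.intervalIntegrable _ _) hp
  rw [intervalIntegral.integral_const_mul, intervalIntegral.integral_finsetSum
    (fun i hi => (hwc2 i hi).intervalIntegrable _ _)] at h1
  have hQ0 : 0 ≤ Q := by
    obtain ⟨i, hi⟩ := hSne
    refine le_trans ?_ (hQ i ((hSm i).mp hi))
    apply intervalIntegral.integral_nonneg hab
    intro τ _
    exact Real.rpow_nonneg (ww_nonneg _ _ _ _ _ _) _
  have h2 : ∑ i ∈ S, ∫ τ in a..b, ww X (M i) (F i) (u i) (v i) τ ^ (2 - δ) ≤ 6 * Q := by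
    calc ∑ i ∈ S, ∫ τ in a..b, ww X (M i) (F i) (u i) (v i) τ ^ (2 - δ) ≤ ∑ _i ∈ S, Q :=
          Finset.sum_le_sum fun i hi => hQ i ((hSm i).mp hi)
      _ = S.card * Q := by rw [Finset.sum_const, nsmul_eq_mul]
      _ ≤ 6 * Q := by
          apply mul_le_mul_of_nonneg_right _ hQ0
          have : S.card ≤ 6 := by
            calc S.card ≤ Fintype.card (Fin r) := Finset.card_le_univ _
              _ = r := Fintype.card_fin r
              _ ≤ 6 := hr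
          exact_mod_cast this
  calc ∫ τ in a..b, ∏ i, ‖DD (F i) (u i) (v i) τ‖ ^ 2
      ≤ (PM ^ 2 * L ^ 24 / L ^ R) * (6 * Q) := by
        refine h1.trans ?_
        apply mul_le_mul_of_nonneg_left h2 (by positivity)
    _ ≤ ((18 ^ 6 * X) ^ 2 * L ^ 24 / L ^ R) * (6 * Q) := by gcongr
    _ = X ^ 2 * (6 * (18 ^ 6) ^ 2 * Q * L ^ (24 + R')) / (L ^ R * L ^ R') := by
        rw [pow_add]
        field_simp
    _ ≤ X ^ 2 * L ^ R / (L ^ R * L ^ R') := by gcongr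
    _ = X ^ 2 / L ^ R' := by field_simp

theorem cel (hPW : S_PW) (hSMB : S_SMB) (hFMB : S_FMB) (hHMV : S_HMV) (hDV : S_DV) : S_CEL := by
  intro ε hε B K
  set δ : ℝ := min ε (1 / 100) with hδdef
  have hδ0 : 0 < δ := lt_min hε (by norm_num)
  have hδ : δ ≤ 1 / 100 := min_le_right _ _
  have hδε : δ ≤ ε := min_le_left _ _
  set e1 : ℝ := δ / 24 with he1
  have he0 : 0 < e1 := by rw [he1]; positivity
  set m : ℕ := ⌈1 / e1⌉₊ with hm
  have hm1 : 1 ≤ m := Nat.one_le_iff_ne_zero.mpr (by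
    rw [hm, Ne, Nat.ceil_eq_zero, not_le]; positivity)
  obtain ⟨C, hC⟩ := spl hSMB hFMB hHMV hDV hδ0 hδ he0
  set R : ℕ := K + 25 + B * C + C with hR
  set K' : ℕ := ⌈(R : ℝ) * (4 / δ)⌉₊ with hK'
  obtain ⟨C0, X0, hPW⟩ := hPW B K' m hm1
  refine ⟨C0 + 2, X0 + 18 ^ 12 + ⌈Real.exp (8 + 6 * (18 ^ 6) ^ 2 * C)⌉₊, ?_⟩
  intro X hX q hq hqB χ r hr1 hr T' hT1 hT2 z hz F hF M u v hM hprod1 hprod2
  have hXX0 : X0 ≤ X := by omega
  have hX18 : 18 ^ 12 ≤ X := by omega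
  have hX18r : (18 : ℝ) ^ 12 ≤ X := by exact_mod_cast hX18
  have hXe : Real.exp (8 + 6 * (18 ^ 6) ^ 2 * C) ≤ X := by
    have h1 : ⌈Real.exp (8 + 6 * (18 ^ 6) ^ 2 * C)⌉₊ ≤ X := by omega
    exact Nat.ceil_le.mp h1
  have hXpos : (0 : ℝ) < X := lt_of_lt_of_le (Real.exp_pos _) hXe
  set L : ℝ := Real.log X with hL
  have hLe : 8 + 6 * (18 ^ 6) ^ 2 * (C : ℝ) ≤ L := by
    rw [hL, Real.le_log_iff_exp_le hXpos]
    exact hXe
  have hC0 : (0 : ℝ) ≤ C := Nat.cast_nonneg C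
  have hL8 : 8 ≤ L := by
    have : 0 ≤ 6 * (18 ^ 6) ^ 2 * (C : ℝ) := by positivity
    linarith
  have hL1 : 1 ≤ L := by linarith
  have hX1 : (1 : ℝ) < X := by
    refine lt_of_lt_of_le (by norm_num) hX18r
  have hX2 : Real.exp 2 ≤ X := by
    refine le_trans (Real.exp_le_exp.mpr ?_) hXe
    have : 0 ≤ 6 * (18 ^ 6) ^ 2 * (C : ℝ) := by positivity
    linarith
  -- powers of `X`
  have hsqrt : (18 : ℝ) ^ 6 ≤ (X : ℝ) ^ (1 / 2 : ℝ) := by
    calc (18 : ℝ) ^ 6 = ((18 : ℝ) ^ 12) ^ (1 / 2 : ℝ) := by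
          rw [← Real.sqrt_eq_rpow, show (18 : ℝ) ^ 12 = (18 ^ 6) ^ 2 by norm_num,
            Real.sqrt_sq (by positivity)]
      _ ≤ _ := Real.rpow_le_rpow (by positivity) hX18r (by norm_num)
  have h32 : (18 : ℝ) ^ 6 * X ≤ (X : ℝ) ^ (3 / 2 : ℝ) := by
    calc (18 : ℝ) ^ 6 * X ≤ (X : ℝ) ^ (1 / 2 : ℝ) * X := by gcongr
      _ = (X : ℝ) ^ (3 / 2 : ℝ) := by
          nth_rewrite 2 [← Real.rpow_one (X : ℝ)]
          rw [← Real.rpow_add hXpos]
          norm_num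
  have h24 : (16 : ℝ) ≤ (X : ℝ) ^ (1 / 12 : ℝ) := by
    calc (16 : ℝ) ≤ 18 := by norm_num
      _ = ((18 : ℝ) ^ 12) ^ (1 / 12 : ℝ) := by
          rw [← Real.rpow_natCast, ← Real.rpow_mul (by norm_num)]
          norm_num
      _ ≤ _ := Real.rpow_le_rpow (by positivity) hX18r (by norm_num)
  have h8X : 8 * (X : ℝ) ^ (1 / 3 : ℝ) ≤ (X : ℝ) ^ (1 / 2 - δ / 4) := by
    calc 8 * (X : ℝ) ^ (1 / 3 : ℝ) ≤ (X : ℝ) ^ (1 / 12 : ℝ) * (X : ℝ) ^ (1 / 3 : ℝ) := by
          gcongr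
          linarith
      _ = (X : ℝ) ^ (5 / 12 : ℝ) := by rw [← Real.rpow_add hXpos]; norm_num
      _ ≤ _ := by
          apply Real.rpow_le_rpow_of_exponent_le hX1.le
          linarith
  have hT2' : T' ≤ (X : ℝ) ^ (5 / 6 - δ) := by
    refine hT2.trans ?_
    apply Real.rpow_le_rpow_of_exponent_le hX1.le
    linarith
  have h2T : 2 * T' ≤ X := by
    calc 2 * T' ≤ (X : ℝ) ^ (1 / 12 : ℝ) * (X : ℝ) ^ (5 / 6 - δ) := by
          have : 0 ≤ (X : ℝ) ^ (5 / 6 - δ) := by positivity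
          have h1 : 2 * (X : ℝ) ^ (5 / 6 - δ) ≤ (X : ℝ) ^ (1 / 12 : ℝ) * (X : ℝ) ^ (5 / 6 - δ) := by
            gcongr
            linarith
          linarith
      _ = (X : ℝ) ^ (1 / 12 + (5 / 6 - δ)) := by rw [← Real.rpow_add hXpos]
      _ ≤ (X : ℝ) ^ (1 : ℝ) := by
          apply Real.rpow_le_rpow_of_exponent_le hX1.le
          linarith
      _ = X := Real.rpow_one _
  have hT3 : 3 ≤ T' := by
    refine le_trans ?_ hT1
    calc (3 : ℝ) ≤ L ^ 2 := by nlinarith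
      _ ≤ L ^ (C0 + 2) := pow_le_pow_right₀ hL1 (by omega)
  have hTC0 : L ^ C0 ≤ T' := le_trans (pow_le_pow_right₀ hL1 (by omega)) hT1
  -- sizes
  have hM1 : ∀ i, 1 ≤ M i := fun i => (hM i).1
  have hM1r : ∀ i, (1 : ℝ) ≤ M i := fun i => by exact_mod_cast hM1 i
  have hP1 : (X : ℝ) ≤ ∏ i, (M i : ℝ) := by exact_mod_cast hprod1
  have hP2 : ∏ i, (M i : ℝ) ≤ 18 ^ 6 * X := by
    have h1 : ∏ i, (M i : ℝ) ≤ 18 ^ r * X := by exact_mod_cast hprod2
    refine h1.trans ?_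
    apply mul_le_mul_of_nonneg_right _ hXpos.le
    exact pow_le_pow_right₀ (by norm_num) hr
  have hMle : ∀ i, (M i : ℝ) ≤ (X : ℝ) ^ (3 / 2 : ℝ) := by
    intro i
    refine le_trans ?_ (hP2.trans h32)
    rw [← Finset.mul_prod_erase Finset.univ _ (Finset.mem_univ i)]
    apply le_mul_of_one_le_right (by linarith [hM1r i])
    calc (1 : ℝ) = ∏ _j ∈ Finset.univ.erase i, (1 : ℝ) := by simp
      _ ≤ _ := Finset.prod_le_prod (fun _ _ => by norm_num) (fun j _ => hM1r j)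
  have hMX : ∀ i, Real.log (M i) ≤ 3 / 2 * L := by
    intro i
    have h1 := Real.log_le_log (by linarith [hM1r i]) (hMle i)
    rwa [Real.log_rpow hXpos] at h1
  have hMsq : ∀ i, M i ≤ X ^ 2 := by
    intro i
    have h1 : (M i : ℝ) ≤ (X : ℝ) ^ 2 := by
      refine (hMle i).trans ?_
      rw [← Real.rpow_natCast]
      apply Real.rpow_le_rpow_of_exponent_le hX1.le
      norm_num
    exact_mod_cast h1
  have hTy : ∀ i, Ty χ z (F i) := hF
  have hq1 : (1 : ℝ) ≤ q := by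
    have := NeZero.one_le (n := q)
    exact_mod_cast this
  -- the constant
  have hfin : 6 * (18 ^ 6) ^ 2 * (C * (q : ℝ) ^ C * L ^ C) * L ^ (24 + K) ≤ L ^ R := by
    have h1 : (q : ℝ) ^ C ≤ L ^ (B * C) := by
      rw [pow_mul]
      exact pow_le_pow_left₀ (by linarith) hqB C
    have h2 : 6 * (18 ^ 6) ^ 2 * (C : ℝ) ≤ L := by linarith
    calc 6 * (18 ^ 6) ^ 2 * (C * (q : ℝ) ^ C * L ^ C) * L ^ (24 + K)
        = (6 * (18 ^ 6) ^ 2 * (C : ℝ)) * (q : ℝ) ^ C * L ^ C * L ^ (24 + K) := by ring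
      _ ≤ L * L ^ (B * C) * L ^ C * L ^ (24 + K) := by gcongr
      _ = L ^ R := by
          rw [hR]
          ring
  have hKR : (R : ℝ) ≤ K' * (δ / 4) := by
    have h1 : (R : ℝ) * (4 / δ) ≤ K' := Nat.le_ceil _
    calc (R : ℝ) = (R : ℝ) * (4 / δ) * (δ / 4) := by field_simp
      _ ≤ K' * (δ / 4) := by gcongr
  -- both signs
  have key : ∀ a b : ℝ, (a = T' ∧ b = 2 * T') ∨ (a = -(2 * T') ∧ b = -T') →
      ∫ τ in a..b, ∏ i, ‖∑ n ∈ Finset.Ioc (u i) (v i), F i n * nt τ n‖ ^ 2 ≤ (X : ℝ) ^ 2 / L ^ K := by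
    intro a b hab
    have habl : a ≤ b := by
      rcases hab with ⟨h1, h2⟩ | ⟨h1, h2⟩ <;> linarith
    have hτ : ∀ τ ∈ Set.Icc a b, T' ≤ |τ| ∧ |τ| ≤ 2 * T' := by
      intro τ hτ
      rcases hab with ⟨h1, h2⟩ | ⟨h1, h2⟩
      · rw [h1, h2] at hτ
        rw [abs_of_nonneg (by linarith [hτ.1])]
        exact hτ
      · rw [h1, h2] at hτ
        rw [abs_of_nonpos (by linarith [hτ.2])]
        exact ⟨by linarith [hτ.2], by linarith [hτ.1]⟩
    have hsave : ∀ i, (X : ℝ) ^ e1 ≤ (M i : ℝ) → ∀ τ ∈ Set.Icc a b, ‖DD (F i) (u i) (v i) τ‖ ≤ M i / L ^ K' := by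
      intro i hi τ hτ'
      have h1 : (X : ℝ) ≤ (M i : ℝ) ^ m := by
        calc (X : ℝ) = (X : ℝ) ^ (1 : ℝ) := (Real.rpow_one _).symm
          _ ≤ (X : ℝ) ^ (e1 * m) := by
              apply Real.rpow_le_rpow_of_exponent_le hX1.le
              have h2 : 1 / e1 ≤ m := Nat.le_ceil _
              rw [div_le_iff₀ he0] at h2
              linarith
          _ = ((X : ℝ) ^ e1) ^ m := by rw [Real.rpow_mul hXpos.le, Real.rpow_natCast]
          _ ≤ (M i : ℝ) ^ m := by gcongr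
      have h2 := hτ τ hτ'
      rcases hTy i with h | h | h
      · have h3 := (hPW X hXX0 q hq hqB χ (M i) (u i) (min (v i) z) h1 (hM i).2.1
          ((min_le_left _ _).trans (hM i).2.2) (hMsq i) τ (hTC0.trans h2.1) (by linarith [h2.2])).1
        rw [h, DD_gmu]
        exact h3
      · have h3 := (hPW X hXX0 q hq hqB χ (M i) (u i) (v i) h1 (hM i).2.1
          (hM i).2.2 (hMsq i) τ (hTC0.trans h2.1) (by linarith [h2.2])).2.1
        rw [h]
        exact h3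
      · have h3 := (hPW X hXX0 q hq hqB χ (M i) (u i) (v i) h1 (hM i).2.1
          (hM i).2.2 (hMsq i) τ (hTC0.trans h2.1) (by linarith [h2.2])).2.2
        rw [h]
        exact h3
    have hone : ∀ i, (X : ℝ) ^ e1 ≤ (M i : ℝ) → ∀ τ ∈ Set.Icc a b, ‖DD (F i) (u i) (v i) τ‖ ≤ M i := by
      intro i hi τ hτ'
      refine (hsave i hi τ hτ').trans ?_
      exact div_le_self (Nat.cast_nonneg _) (one_le_pow₀ hL1)
    exact assemble hr hδ0 hδ he1 hX1 hL hL8 F M u v hM1 hMX hP1 hP2 a b habl R K K' hKR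
      (fun i τ _ => triv_block (hTy i) (hM1 i) (hM i).2.1 (hM i).2.2 hL8 (hMX i) τ) hsave
      (fun i hi => hC X hX2 h8X q hq χ T' a b hT3 hT2' hab z hz (F i) (M i) (u i) (v i) (hTy i) hi (hMle i)
        (hM i).2.1 (hM i).2.2 (hone i hi)) hfin
  exact ⟨key _ _ (Or.inl ⟨rfl, rfl⟩), key _ _ (Or.inr ⟨rfl, rfl⟩)⟩

end Pool.Agent.V5helper44.CR6
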